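import Pool.Agent.Lib.MP_610fe3_an.AC.U1.SpecLoc1
import Pool.Agent.Lib.MP_610fe3_an.T6.Basic
import Pool.Agent.Lib.MP_610fe3_an.T6.Hol
import Pool.Agent.Lib.MP_610fe3_an.T6.PackS

/-!
# Bounded overlap of Bowen balls and of the balls of their nets
-/

open Set Filter Function Metric MeasureTheory
open scoped Topology ENNReal

namespace Pool.Agent.Lib.MP610fe3.AC.U1

open Cf H6 T4 T6

universe v

/-- Balls with bounded overlap inside a ball. -/
theorem pack_ovl {u : ℕ} (hu : 1 ≤ u) {α : Type} [DecidableEq α] (s : Finset α)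
    (c : α → EuclideanSpace ℝ (Fin u)) (l : α → ℝ) (Ω R : ℝ) (hΩ : 0 ≤ Ω) (hR : 0 ≤ R)
    (hl : ∀ a ∈ s, 0 ≤ l a) (hin : ∀ a ∈ s, dist (c a) 0 + l a ≤ R)
    (hov : ∀ x, ∀ t : Finset α, t ⊆ s → (∀ a ∈ t, dist (c a) x ≤ l a) → (t.card : ℝ) ≤ Ω) :
    ∑ a ∈ s, l a ^ u ≤ Ω * R ^ u := by
  classical
  have : Nonempty (Fin u) := ⟨⟨0, hu⟩⟩
  have : Nontrivial (EuclideanSpace ℝ (Fin u)) := by
    apply Module.nontrivial_of_finrank_pos (R := ℝ)
    rw [finrank_euclideanSpace_fin]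
    omega
  set V : ℝ≥0∞ := volume (ball (0 : EuclideanSpace ℝ (Fin u)) 1) with hV
  have hV0 : V ≠ 0 := (measure_ball_pos volume _ one_pos).ne'
  have hVt : V ≠ ⊤ := measure_ball_lt_top.ne
  have hvol : ∀ (x : EuclideanSpace ℝ (Fin u)) {t : ℝ}, 0 ≤ t →
      volume (closedBall x t) = ENNReal.ofReal (t ^ u) * V := by
    intro x t ht
    rw [Measure.addHaar_closedBall volume x ht, finrank_euclideanSpace_fin]
  have h1 : ∑ a ∈ s, volume (closedBall (c a) (l a)) ≤
      ENNReal.ofReal Ω * volume (closedBall (0 : EuclideanSpace ℝ (Fin u)) R) := by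
    calc ∑ a ∈ s, volume (closedBall (c a) (l a))
        = ∑ a ∈ s, ∫⁻ x, (closedBall (c a) (l a)).indicator 1 x := by
          refine Finset.sum_congr rfl fun a _ => ?_
          rw [lintegral_indicator_one measurableSet_closedBall]
      _ = ∫⁻ x, ∑ a ∈ s, (closedBall (c a) (l a)).indicator 1 x := by
          rw [lintegral_finset_sum']
          intro a _
          exact (measurable_one.indicator measurableSet_closedBall).aemeasurable
      _ ≤ ∫⁻ x, (closedBall (0 : EuclideanSpace ℝ (Fin u)) R).indicator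
            (fun _ => ENNReal.ofReal Ω) x := by
          refine lintegral_mono fun x => ?_
          have h2 : ∑ a ∈ s, (closedBall (c a) (l a)).indicator (1 : EuclideanSpace ℝ (Fin u) → ℝ≥0∞) x =
              ((s.filter fun a => dist (c a) x ≤ l a).card : ℝ≥0∞) := by
            rw [Finset.card_filter]
            push_cast
            refine Finset.sum_congr rfl fun a _ => ?_
            by_cases h3 : dist (c a) x ≤ l a
            · rw [if_pos h3, indicator_of_mem, Pi.one_apply]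
              rw [mem_closedBall, dist_comm]
              exact h3
            · rw [if_neg h3, indicator_of_notMem]
              rw [mem_closedBall, dist_comm]
              exact h3
          simp only [h2]
          by_cases h3 : x ∈ closedBall (0 : EuclideanSpace ℝ (Fin u)) R
          · rw [indicator_of_mem h3, ← ENNReal.ofReal_natCast]
            apply ENNReal.ofReal_le_ofReal
            exact hov x _ (Finset.filter_subset _ _) fun a ha => (Finset.mem_filter.1 ha).2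
          · have h4 : s.filter (fun a => dist (c a) x ≤ l a) = ∅ := by
              refine Finset.filter_eq_empty_iff.2 fun a ha h5 => h3 ?_
              have h6 := hin a ha
              rw [mem_closedBall]
              have h7 := dist_triangle x (c a) 0
              rw [dist_comm x (c a)] at h7
              linarith
            rw [h4]
            simp
      _ = _ := by
          rw [lintegral_indicator_const measurableSet_closedBall]
  rw [hvol 0 hR, Finset.sum_congr rfl fun a ha => hvol (c a) (hl a ha), ← Finset.sum_mul,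
    ← mul_assoc, ENNReal.mul_le_mul_iff_left hV0 hVt,
    ← ENNReal.ofReal_sum_of_nonneg fun a ha => pow_nonneg (hl a ha) u,
    ← ENNReal.ofReal_mul hΩ] at h1
  exact (ENNReal.ofReal_le_ofReal_iff (by positivity)).1 h1

variable {M : Type v} [MetricSpace M] {f : M ≃ₜ M} {u : ℕ}
  {φ : M → EuclideanSpace ℝ (Fin u) → M} {C a b κ₀ r r₁ e ρ : ℝ}

/-- Separated points in a Bowen ball. -/
theorem ovl (S : Sys f u φ C a b κ₀ r r₁ e ρ) {R η₂ : ℝ} (hR : 0 < R) (hη₂ : 0 < η₂)
    (hRe : C * R ≤ e) : ∃ Ω : ℝ, 1 ≤ Ω ∧ ∀ (n : ℕ) {ι : Type} (s : Finset ι) (x : ι → M) (z : M),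
      (∀ i ∈ s, x i ∈ Wl f.symm (2 * e) z ∧ ∀ k ≤ n, dist (f^[k] (x i)) (f^[k] z) ≤ R) →
      (∀ i ∈ s, ∀ j ∈ s, i ≠ j → ∃ k ≤ n, η₂ < dist (f^[k] (x i)) (f^[k] (x j))) →
      (s.card : ℝ) ≤ Ω := by
  classical
  have hC := S.C1
  have hC0 : 0 < C := by linarith
  have he := S.e_pos
  have her := S.e_le_r
  have hRr : R ≤ e := by nlinarith
  set t : ℝ := η₂ / (2 * C ^ 2) with ht
  have ht0 : 0 < t := by positivity
  refine ⟨max 1 (((C * R + t) / t) ^ u), le_max_left _ _, ?_⟩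
  intro n ι s x z hx hsep
  refine le_trans ?_ (le_max_right _ _)
  have hW : ∀ i ∈ s, f^[n] (x i) ∈ Wl f.symm (C * R) (f^[n] z) := by
    intro i hi
    obtain ⟨h1, h2⟩ := hx i hi
    have h3 := TrM.wl_iter (f := f) (r := r) (N := n) (Wl_mono (by linarith) h1)
      (fun j hj => (h2 j hj).trans (by linarith))
    refine S.wl_un h3 ?_
    have := h2 n le_rfl
    gcongr
  have hco : ∀ i, ∃ c : EuclideanSpace ℝ (Fin u), i ∈ s → c ∈ closedBall 0 (ρ / 2) ∧
      ‖c‖ ≤ C * dist (f^[n] (x i)) (f^[n] z) ∧ φ (f^[n] z) c = f^[n] (x i) := by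
    intro i
    by_cases hi : i ∈ s
    · obtain ⟨c, h1, h2, h3⟩ := S.onto_small (Wl_mono (by linarith) (hW i hi))
      exact ⟨c, fun _ => ⟨h1, h2, h3⟩⟩
    · exact ⟨0, fun h => absurd h hi⟩
  choose c hc using hco
  have hρ := S.ρ_pos
  have hpack := PackSM.pack S.u_pos s c (fun _ => t) 0 (C * R + t) (by positivity)
    (fun _ _ => ht0.le) (fun i hi j hj hij => ?_) (fun i hi => ?_)
  · rw [Finset.sum_const, nsmul_eq_mul] at hpack
    rw [div_pow, le_div_iff₀ (by positivity)]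
    exact hpack
  · obtain ⟨k, hk, hk'⟩ := hsep i hi j hj hij
    have h1 : f^[n] (x i) ∈ Wl f.symm r (f^[n] (x j)) :=
      Wl_mono (by linarith) (Wl_trans (Wl_comm (hW j hj)) (hW i hi))
    have h2 := S.dec_un' h1 (n - k)
    rw [TrM.sii_le f (Nat.sub_le _ _), TrM.sii_le f (Nat.sub_le _ _), Nat.sub_sub_self hk] at h2
    obtain ⟨h3, -, h4⟩ := hc i hi
    obtain ⟨h5, -, h6⟩ := hc j hj
    have h7 := S.upper (f^[n] z) (c i) (closedBall_subset_closedBall (by linarith) h3) (c j)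
      (closedBall_subset_closedBall (by linarith) h5)
    rw [h4, h6] at h7
    have h8 : η₂ ≤ C ^ 2 * dist (c i) (c j) := by
      calc η₂ ≤ dist (f^[k] (x i)) (f^[k] (x j)) := hk'.le
        _ ≤ C * dist (f^[n] (x i)) (f^[n] (x j)) := h2
        _ ≤ C * (C * dist (c i) (c j)) := by gcongr
        _ = C ^ 2 * dist (c i) (c j) := by ring
    have h9 : t + t = η₂ / C ^ 2 := by
      rw [ht]
      field_simp
      ring
    show t + t ≤ dist (c i) (c j)
    rw [h9, div_le_iff₀ (by positivity)]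
    linarith
  · obtain ⟨-, h4, -⟩ := hc i hi
    have h5 := (hx i hi).2 n le_rfl
    rw [dist_zero_right]
    have : C * dist (f^[n] (x i)) (f^[n] z) ≤ C * R := by gcongr
    show ‖c i‖ + t ≤ C * R + t
    linarith

/-- The overlap of the balls of the nets, in the chart at `p₀`. -/
theorem ovl_nets (S : Sys f u φ C a b κ₀ r r₁ e ρ) {R η₂ θ lam₀ : ℝ} (hR : 0 < R) (hη₂ : 0 < η₂)
    (hRe : C * R ≤ e) (hθ : 0 < θ) (hlam₀ : 0 < lam₀) (hsm : C ^ 3 * θ + C * lam₀ ≤ e)
    (hlρ : lam₀ ≤ ρ) : ∃ Ω : ℝ, 1 ≤ Ω ∧ ∀ (n : ℕ) (p₀ : M) {ι : Type} (s : Finset ι)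
      (g : ι → M) (lam : ι → ℝ) (T : ι → Finset M)
      (T' : ι → Finset (EuclideanSpace ℝ (Fin u))),
      (∀ i ∈ s, 0 < lam i ∧ lam i ≤ lam₀) → (∀ i ∈ s, ∀ y ∈ T i, y ∈ Wl f.symm (C ^ 3 * θ) (g i)) →
      (∀ i ∈ s, ∀ y ∈ T i, ∀ y' ∈ T i, y ≠ y' → lam i < dist y y') →
      (∀ i ∈ s, ∀ y ∈ T i, ∀ z ∈ Wl f.symm e (g i), dist y z < lam i →
        ∀ k ≤ n, dist (f^[k] z) (f^[k] (g i)) ≤ R) →
      (∀ i ∈ s, ∀ j ∈ s, i ≠ j → g j ∈ Wl f.symm e (g i) →
        ∃ k ≤ n, η₂ < dist (f^[k] (g i)) (f^[k] (g j))) →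
      (∀ i ∈ s, ∀ y ∈ T' i, y ∈ closedBall (0 : EuclideanSpace ℝ (Fin u)) (ρ / 2) ∧ φ p₀ y ∈ T i) →
      2 * (C ^ 3 * θ + C * lam₀) ≤ e →
      ∀ (x : EuclideanSpace ℝ (Fin u)) (t : Finset (Σ _ : ι, EuclideanSpace ℝ (Fin u))),
        t ⊆ s.sigma T' → (∀ α ∈ t, dist α.2 x ≤ lam α.1 / (4 * C)) → (t.card : ℝ) ≤ Ω := by
  classical
  have hC := S.C1
  have hC0 : 0 < C := by linarith
  have he := S.e_pos
  have her := S.e_le_r
  have hρ := S.ρ_pos
  obtain ⟨Ω, hΩ, hovl⟩ := ovl S hR hη₂ hRe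
  refine ⟨Ω, hΩ, ?_⟩
  intro n p₀ ι s g lam T T' hlam hTW hTsep hTB hgsep hT' hsm2 x t ht hx
  -- coordinates
  have hmem : ∀ α ∈ t, α.1 ∈ s ∧ α.2 ∈ T' α.1 := fun α hα => by
    have := ht hα
    rwa [Finset.mem_sigma] at this
  have hy : ∀ α ∈ t, α.2 ∈ closedBall (0 : EuclideanSpace ℝ (Fin u)) ρ ∧
      φ p₀ α.2 ∈ T α.1 := fun α hα => by
    obtain ⟨h1, h2⟩ := hT' _ (hmem α hα).1 _ (hmem α hα).2
    exact ⟨closedBall_subset_closedBall (by linarith) h1, h2⟩
  have hlC : ∀ α ∈ t, lam α.1 / (4 * C) ≤ lam₀ / 4 := by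
    intro α hα
    have h1 := hlam _ (hmem α hα).1
    calc lam α.1 / (4 * C) ≤ lam α.1 / (4 * 1) := by
          apply div_le_div_of_nonneg_left h1.1.le (by norm_num)
          linarith
      _ ≤ lam₀ / 4 := by
          rw [mul_one]
          linarith [h1.2]
  have hxρ : ∀ α ∈ t, x ∈ closedBall (0 : EuclideanSpace ℝ (Fin u)) ρ := by
    intro α hα
    have h1 := (hT' _ (hmem α hα).1 _ (hmem α hα).2).1
    have h2 := hx α hα
    have h3 := hlC α hα
    rw [mem_closedBall] at h1 ⊢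
    rw [dist_comm] at h2
    linarith [dist_triangle x α.2 0]
  -- the map to the indices is injective
  have hinj : InjOn (fun α : (Σ _ : ι, EuclideanSpace ℝ (Fin u)) => α.1) (t : Set _) := by
    rintro ⟨i, y⟩ hα ⟨j, y'⟩ hβ hij
    have hα' := Finset.mem_coe.1 hα
    have hβ' := Finset.mem_coe.1 hβ
    obtain rfl : i = j := hij
    have h1 := hx _ hα'
    have h2 := hx _ hβ'
    have h3 := hy _ hα'
    have h4 := hy _ hβ'
    simp only at h1 h2 h3 h4
    have h5 := S.upper p₀ y h3.1 y' h4.1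
    have hl := (hlam i (hmem _ hα').1).1
    have h6 : dist (φ p₀ y) (φ p₀ y') ≤ lam i / 2 := by
      calc dist (φ p₀ y) (φ p₀ y') ≤ C * dist y y' := h5
        _ ≤ C * (lam i / (4 * C) + lam i / (4 * C)) := by
            rw [dist_comm] at h2
            have := dist_triangle y x y'
            gcongr
            linarith
        _ = lam i / 2 := by field_simp; ring
    have h7 : φ p₀ y = φ p₀ y' := by
      by_contra hne
      have := hTsep i (hmem _ hα').1 _ h3.2 _ h4.2 hne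
      linarith
    have h8 := S.lower p₀ y h3.1 y' h4.1
    rw [h7, dist_self, mul_zero] at h8
    have h9 : y = y' := dist_le_zero.1 h8
    rw [h9]
  have hcard : (t.image fun α => α.1).card = t.card := Finset.card_image_of_injOn hinj
  rw [← hcard]
  have key : ∀ i ∈ t.image (fun α => α.1), i ∈ s ∧ φ p₀ x ∈ Wl f.symm (C ^ 3 * θ + C * lam₀) (g i) ∧
      ∀ k ≤ n, dist (f^[k] (φ p₀ x)) (f^[k] (g i)) ≤ R := by
    intro i hi
    obtain ⟨α, hα, rfl⟩ := Finset.mem_image.1 hi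
    obtain ⟨h1, h2⟩ := hy α hα
    have h3 := hx α hα
    have hl := hlam _ (hmem α hα).1
    have h4 : φ p₀ x ∈ Wl f.symm (C * lam₀) (φ p₀ α.2) := by
      refine Wl_mono ?_ (HolM.phi_wl S p₀ (hxρ α hα) h1)
      rw [dist_comm]
      calc C ^ 2 * dist α.2 x ≤ C ^ 2 * (lam α.1 / (4 * C)) := by gcongr
        _ = C * lam α.1 / 4 := by field_simp
        _ ≤ C * lam₀ := by
            have : C * lam α.1 ≤ C * lam₀ := by gcongr; exact hl.2
            have : 0 ≤ C * lam₀ := by positivity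
            linarith
    have h5 := Wl_trans (hTW _ (hmem α hα).1 _ h2) h4
    refine ⟨(hmem α hα).1, h5, ?_⟩
    refine hTB _ (hmem α hα).1 _ h2 _ (Wl_mono hsm h5) ?_
    calc dist (φ p₀ α.2) (φ p₀ x) ≤ C * dist α.2 x := S.upper p₀ _ h1 _ (hxρ α hα)
      _ ≤ C * (lam α.1 / (4 * C)) := by gcongr
      _ = lam α.1 / 4 := by field_simp
      _ < lam α.1 := by linarith [hl.1]
  refine hovl n (t.image fun α => α.1) g (φ p₀ x) (fun i hi => ?_) (fun i hi j hj hij => ?_)
  · obtain ⟨-, h1, h2⟩ := key i hi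
    exact ⟨Wl_mono (by linarith) (Wl_comm h1), fun k hk => by rw [dist_comm]; exact h2 k hk⟩
  · obtain ⟨h1, h2, -⟩ := key i hi
    obtain ⟨h3, h4, -⟩ := key j hj
    refine hgsep i h1 j h3 hij (Wl_mono ?_ (Wl_trans h2 (Wl_comm h4)))
    linarith

end Pool.Agent.Lib.MP610fe3.AC.U1
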