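import Pool.Agent.Lib.MP_610fe3_an.AC.U1.Spec1
import Pool.Agent.Lib.MP_610fe3_an.AC.U1.OVL
import Pool.Agent.Lib.MP_610fe3_an.AC.EyonA

/-!
# Module EYA1: the number of pieces of the image, exponent `u - 1`

Copy of AC/EyonA.lean, with LOC1 and the nets of the Bowen balls.
-/

open Set Filter Function Metric
open scoped Topology

namespace Pool.Agent.Lib.MP610fe3.AC.U1

open Cf H6 T4 T6

universe v

namespace EyA1M

variable {M : Type v} [MetricSpace M] {f : M ≃ₜ M} {u : ℕ}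
  {φ : M → EuclideanSpace ℝ (Fin u) → M} {C a b κ₀ r r₁ e ρ η κ : ℝ} {P : Set M}

open scoped Classical in
/-- The local estimate near a point `p = Y s₀`. -/
theorem near (hLoc : SpecLoc1) (hCut : SpecCutM.{v}) (hNet : SpecNet.{v})
    (S : Sys f u φ C a b κ₀ r r₁ e ρ)
    (hη : 0 < η) (hηe : 1000 * C ^ 5 * η ≤ e) (hηρ : 1000 * C ^ 5 * η ≤ ρ)
    (hκ : 0 ≤ κ) (hQ : CellsP f P r e κ) (hsat : ∀ x ∈ P, ∀ y ∈ Wl f.symm e x, y ∈ P) :
    ∃ V : ℝ, 0 < V ∧
    ∀ {n : ℕ} (n' : ℕ) (Y : EuclideanSpace ℝ (Fin u) → M)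
      (Cl : Fin n → Set (EuclideanSpace ℝ (Fin u))) (c : Fin n → EuclideanSpace ℝ (Fin u))
      (D : Fin n → ℝ), Img f P C r e η n' Y Cl c D →
      ∀ s₀ ∈ closedBall (0 : EuclideanSpace ℝ (Fin u)) (1 / 2),
        1 ≤ V * ((n' + 1) * Real.exp (κ * n')) ^ (u - 1) *
          ∑ i, if Y (c i) ∈ Wl f.symm (16 * C ^ 4 * η) (Y s₀) then D i ^ u else 0 := by
  have hC := S.C1
  have hC0 : 0 < C := by linarith
  have he := S.e_pos
  have her := S.e_le_r
  have hρ := S.ρ_pos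
  have hC15 : C ^ 1 ≤ C ^ 5 := pow_le_pow_right₀ hC (by norm_num)
  have hC25 : C ^ 2 ≤ C ^ 5 := pow_le_pow_right₀ hC (by norm_num)
  have hC35 : C ^ 3 ≤ C ^ 5 := pow_le_pow_right₀ hC (by norm_num)
  have hC45 : C ^ 4 ≤ C ^ 5 := pow_le_pow_right₀ hC (by norm_num)
  have hC24 : C ^ 2 ≤ C ^ 4 := pow_le_pow_right₀ hC (by norm_num)
  have hC34 : C ^ 3 ≤ C ^ 4 := pow_le_pow_right₀ hC (by norm_num)
  have hC5 : 1 ≤ C ^ 5 := one_le_pow₀ hC
  rw [pow_one] at hC15
  have hC4 : 0 < C ^ 4 * η := by positivity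
  have k1 : C * η ≤ C ^ 5 * η := by gcongr
  have k2 : C ^ 2 * η ≤ C ^ 5 * η := by gcongr
  have k3 : C ^ 3 * η ≤ C ^ 5 * η := by gcongr
  have k4 : C ^ 4 * η ≤ C ^ 5 * η := by gcongr
  have k0 : η ≤ C ^ 5 * η := le_mul_of_one_le_left hη.le hC5
  have k24 : C ^ 2 * η ≤ C ^ 4 * η := by gcongr
  have k34 : C ^ 3 * η ≤ C ^ 4 * η := by gcongr
  have k5 : 0 < C ^ 5 * η := by positivity
  have hb : C ^ 3 * (4 * C * η) = 4 * (C ^ 4 * η) := by ring
  have hb' : C * (2 * C ^ 3 * (4 * C * η)) = 8 * (C ^ 5 * η) := by ring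
  obtain ⟨C₁, hC₁, hnet⟩ := hNet f u φ C a b κ₀ r r₁ e ρ (4 * C * η) η κ P S (by positivity) hη
    (by linarith) (by linarith) hκ hQ hsat
  have hC₁0 : 0 < C₁ := by linarith
  obtain ⟨Ω, hΩ, hovl⟩ := ovl_nets S (R := 2 * C ^ 3 * (4 * C * η)) (η₂ := η / (4 * C ^ 2))
    (θ := 4 * C * η) (lam₀ := η) (by positivity) (by positivity) (by linarith) (by positivity)
    hη (by linarith) (by linarith)
  obtain ⟨CL, hCL, hL⟩ := hLoc u (1 / (4 * C ^ 2)) S.u_pos (by positivity)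
  obtain ⟨l, hl⟩ := EyM.exists_ell (X := C₁ * η) hC
  refine ⟨CL * (Ω * C₁ * ((l : ℝ) + 1)) ^ (u - 1), by positivity, ?_⟩
  intro n n' Y Cl c D H s₀ hs₀
  have hs₀1 : s₀ ∈ closedBall (0 : EuclideanSpace ℝ (Fin u)) 1 :=
    closedBall_subset_closedBall (by norm_num) hs₀
  set δ : ℝ := C * η with hδ
  have hδ0 : 0 < δ := by positivity
  set p : M := Y s₀ with hp
  have hpA : p ∈ P := H.memP s₀ hs₀1
  set L : ℕ := l * (n' + 1) with hLdef
  set K : ℝ := C₁ * Real.exp (κ * n') with hK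
  have hK1 : 1 ≤ K := by
    have : 1 ≤ Real.exp (κ * n') := Real.one_le_exp (by positivity)
    exact one_le_mul_of_one_le_of_one_le hC₁ this
  choose lam T hlam0 hlam1 hlamL hTm hTc hTs hTd hTB _ using fun i : Fin n =>
    hnet n' (Y (c i)) (H.memP _ (H.sub i (H.cen i)))
  -- coordinates
  have hco : ∀ y : M, ∃ x : EuclideanSpace ℝ (Fin u), y ∈ Wl f.symm (4 * e) p →
      x ∈ closedBall 0 (ρ / 2) ∧ φ p x = y := by
    intro y
    by_cases h : y ∈ Wl f.symm (4 * e) p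
    · obtain ⟨x, h1, -, h3⟩ := S.onto_small h
      exact ⟨x, fun _ => ⟨h1, h3⟩⟩
    · exact ⟨0, fun h' => absurd h' h⟩
  choose co hco using hco
  -- the point outside
  obtain ⟨z₀, hz₀, hz₀'⟩ := H.inr p hpA
  obtain ⟨e₂, he₂, he₂', he₂''⟩ := S.onto_small (Wl_mono (by linarith : η ≤ 4 * e) hz₀)
  have he₂δ : e₂ ∈ closedBall (0 : EuclideanSpace ℝ (Fin u)) δ := by
    rw [mem_closedBall_zero_iff]
    refine he₂'.trans ?_
    have h1 := Wl_dist hz₀
    show C * dist z₀ p ≤ C * η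
    gcongr
  have hδ' : closedBall (0 : EuclideanSpace ℝ (Fin u)) δ ⊆ closedBall 0 (8 * C ^ 2 * η) := by
    apply closedBall_subset_closedBall
    have : C ≤ C ^ 2 := by nlinarith
    have : C * η ≤ C ^ 2 * η := by gcongr
    rw [hδ]
    have : 0 < C ^ 2 * η := by positivity
    linarith
  have hcut := EyAM.cut hCut S hηe hηρ hη H hs₀ (hδ' he₂δ)
    (fun s hs => by rw [← hp, he₂'']; exact hz₀' s hs)
  -- near cells
  set near : Fin n → Prop := fun i => Y (c i) ∈ Wl f.symm (12 * C ^ 4 * η) p with hnear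
  set T' : Fin n → Finset (EuclideanSpace ℝ (Fin u)) := fun i => (T i).image co with hT'
  have hT1 : ∀ i, ∀ y ∈ T i, y ∈ Wl f.symm (4 * (C ^ 4 * η)) (Y (c i)) := by
    intro i y hy
    have := (hTm i y hy).1
    rwa [hb] at this
  have hTn : ∀ i, near i → ∀ y ∈ T i, y ∈ Wl f.symm (4 * e) p := by
    intro i hi y hy
    refine Wl_mono ?_ (Wl_trans hi (hT1 i y hy))
    linarith
  have hT'1 : ∀ i, near i → ∀ x ∈ T' i, x ∈ closedBall (0 : EuclideanSpace ℝ (Fin u)) (ρ / 2) ∧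
      φ p x ∈ T i := by
    intro i hi x hx
    obtain ⟨y, hy, rfl⟩ := Finset.mem_image.1 hx
    obtain ⟨h1, h2⟩ := hco y (hTn i hi y hy)
    exact ⟨h1, by rw [h2]; exact hy⟩
  have hT'ρ : ∀ i, near i → ∀ x ∈ T' i, x ∈ closedBall (0 : EuclideanSpace ℝ (Fin u)) ρ :=
    fun i hi x hx => closedBall_subset_closedBall (by linarith) (hT'1 i hi x hx).1
  have hTdia : ∀ i, ∀ y ∈ T i, ∀ y' ∈ T i, dist y y' ≤ K * lam i := by
    intro i y hy y' hy'
    refine hTd i y (Wl_mono (by linarith) (hT1 i y hy)) y' (Wl_mono (by linarith) (hT1 i y' hy'))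
      (fun k hk => ?_) (fun k hk => ?_)
    · have := (hTm i y hy).2 k hk
      have h1 : 0 < C ^ 3 * (4 * C * η) := by positivity
      linarith
    · have := (hTm i y' hy').2 k hk
      have h1 : 0 < C ^ 3 * (4 * C * η) := by positivity
      linarith
  have hkey := hL (ι := {i // near i}) (fun i => T' i) (fun i => D i) (fun i => C * lam i) e₂ K δ Ω
    L hK1 hδ0 hΩ (fun i => H.nn i) ?_ ?_ ?_ he₂δ ?_
  rotate_left
  · -- sizes
    rintro ⟨i, hi⟩
    have h0 := hlam0 i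
    refine ⟨by positivity, ?_, ?_⟩
    · show C * lam i ≤ C * η
      have := hlam1 i
      gcongr
    · show C * η ≤ 2 ^ L * (C * lam i)
      have h1 := hlamL i
      have h2 := hl n'
      calc C * η = C * η * 1 := (mul_one _).symm
        _ ≤ C * η * (C₁ * C ^ n' * lam i) := by gcongr
        _ = (C₁ * η * C ^ n') * (C * lam i) := by ring
        _ ≤ 2 ^ L * (C * lam i) := by gcongr
  · -- diameters
    rintro ⟨i, hi⟩ x hx x' hx'
    calc dist x x' ≤ C * dist (φ p x) (φ p x') :=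
          S.lower p x (hT'ρ i hi x hx) x' (hT'ρ i hi x' hx')
      _ ≤ C * (K * lam i) := by
          have := hTdia i _ (hT'1 i hi x hx).2 _ (hT'1 i hi x' hx').2
          gcongr
      _ = K * (C * lam i) := by ring
  · -- overlap
    intro x
    refine hovl n' p (Finset.univ : Finset {i // near i}) (fun i => Y (c i)) (fun i => lam i)
      (fun i => T i) (fun i => T' i) (fun i _ => ⟨hlam0 i, hlam1 i⟩)
      (fun i _ y hy => (hTm i y hy).1) (fun i _ => hTs i) (fun i _ => hTB i)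
      (fun i _ j _ hij hW => H.sep i j (fun h => hij (Subtype.ext h)) (Wl_mono (by linarith) hW))
      (fun i _ => hT'1 i i.2) (by linarith) x _ (Finset.filter_subset _ _) (fun α hα => ?_)
    have h1 := (Finset.mem_filter.1 hα).2
    refine h1.trans (le_of_eq ?_)
    field_simp
  · -- the paths
    intro z hz
    refine (hcut z (hδ' hz)).trans ?_
    rw [EyAM.sum_sub near (fun i => if (∃ x ∈ segment ℝ 0 z ∪ segment ℝ z e₂,
      ∃ y ∈ T' i, dist x y ≤ C * lam i) then D i else 0)]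
    refine Finset.sum_le_sum fun i _ => ?_
    have hnn := H.nn i
    by_cases hi : ∃ s ∈ Cl i, s ∈ closedBall (0 : EuclideanSpace ℝ (Fin u)) 1 ∧
        Y s ∈ φ (Y s₀) '' (segment ℝ 0 z ∪ segment ℝ z e₂)
    · rw [if_pos hi]
      obtain ⟨s, hs, hs1, ξ, hξ, hξY⟩ := hi
      have hξδ := EyAM.seg_sub hδ0.le hz he₂δ hξ
      rw [mem_closedBall_zero_iff] at hξδ
      have hξρ : ξ ∈ closedBall (0 : EuclideanSpace ℝ (Fin u)) ρ :=
        mem_closedBall_zero_iff.2 (hξδ.trans (by linarith))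
      have h1 : Y s ∈ Wl f.symm (C ^ 3 * η) p := by
        rw [← hξY]
        refine S.mem_small p hξρ ?_
        calc C ^ 2 * ‖ξ‖ ≤ C ^ 2 * (C * η) := by gcongr
          _ = C ^ 3 * η := by ring
      have h2 : near i := by
        refine Wl_mono ?_ (Wl_trans h1 (H.img i _ (H.cen i) s hs))
        linarith
      rw [if_pos h2, if_pos]
      obtain ⟨y, hy, hyd⟩ := hTc i (Y s) (Wl_mono (by linarith) (H.img i s hs _ (H.cen i)))
        (H.bow i s hs _ (H.cen i))
      obtain ⟨h3, h4⟩ := hco y (hTn i h2 y hy)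
      refine ⟨ξ, hξ, co y, Finset.mem_image_of_mem _ hy, ?_⟩
      calc dist ξ (co y) ≤ C * dist (φ p ξ) (φ p (co y)) :=
            S.lower p _ hξρ _ (closedBall_subset_closedBall (by linarith) h3)
        _ = C * dist (Y s) y := by rw [h4, ← hξY]
        _ ≤ C * lam i := by gcongr
    · rw [if_neg hi]
      split_ifs <;> first | exact hnn | exact le_rfl
  -- conclusion
  rw [EyAM.sum_sub near (fun i => if (∃ y ∈ T' i, dist y 0 ≤ 2 * δ) then D i ^ u else 0)] at hkey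
  have hsum : (∑ i, if near i then (if (∃ y ∈ T' i, dist y 0 ≤ 2 * δ) then D i ^ u else 0) else 0) ≤
      ∑ i, if Y (c i) ∈ Wl f.symm (16 * C ^ 4 * η) p then D i ^ u else 0 := by
    refine Finset.sum_le_sum fun i _ => ?_
    have hnn : 0 ≤ D i ^ u := pow_nonneg (H.nn i) u
    by_cases h1 : near i
    · rw [if_pos h1]
      by_cases h2 : ∃ y ∈ T' i, dist y 0 ≤ 2 * δ
      · rw [if_pos h2, if_pos]
        obtain ⟨y, hy, hyδ⟩ := h2
        rw [dist_zero_right] at hyδ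
        have h3 : φ p y ∈ Wl f.symm (2 * (C ^ 3 * η)) p := by
          refine S.mem_small p (hT'ρ i h1 y hy) ?_
          calc C ^ 2 * ‖y‖ ≤ C ^ 2 * (2 * (C * η)) := by gcongr
            _ = 2 * (C ^ 3 * η) := by ring
        have h4 := hT1 i _ (hT'1 i h1 y hy).2
        refine Wl_mono ?_ (Wl_trans h3 (Wl_comm h4))
        linarith
      · rw [if_neg h2]
        split_ifs <;> first | exact hnn | exact le_rfl
    · rw [if_neg h1]
      split_ifs <;> first | exact hnn | exact le_rfl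
  have h3 : ((L : ℕ) : ℝ) + 1 ≤ (l + 1) * (n' + 1) := by
    rw [hLdef]
    push_cast
    have : (0 : ℝ) ≤ n' := Nat.cast_nonneg n'
    linarith
  have h5 : Ω * K * ((L : ℝ) + 1) ≤ Ω * C₁ * ((l : ℝ) + 1) * ((n' + 1) * Real.exp (κ * n')) := by
    rw [hK]
    calc Ω * (C₁ * Real.exp (κ * n')) * ((L : ℝ) + 1)
        ≤ Ω * (C₁ * Real.exp (κ * n')) * ((l + 1) * (n' + 1)) := by gcongr
      _ = _ := by ring
  calc (1 : ℝ) ≤ CL * (Ω * K * (L + 1)) ^ (u - 1) *
        ∑ i, (if near i then (if (∃ y ∈ T' i, dist y 0 ≤ 2 * δ) then D i ^ u else 0) else 0) := hkey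
    _ ≤ CL * (Ω * C₁ * ((l : ℝ) + 1) * ((n' + 1) * Real.exp (κ * n'))) ^ (u - 1) *
        ∑ i, (if Y (c i) ∈ Wl f.symm (16 * C ^ 4 * η) p then D i ^ u else 0) := by
        have hs0 : 0 ≤ ∑ i, if near i then
            (if (∃ y ∈ T' i, dist y 0 ≤ 2 * δ) then D i ^ u else 0) else 0 := by
          refine Finset.sum_nonneg fun i _ => ?_
          have hnn : 0 ≤ D i ^ u := pow_nonneg (H.nn i) u
          split_ifs <;> first | exact hnn | exact le_rfl
        gcongr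
    _ = _ := by
        rw [mul_pow]
        ring

end EyA1M

open scoped Classical in
/-- The number of pieces. -/
theorem specEyA1 (hLoc : SpecLoc1) (hCut : SpecCutM.{v}) (hNet : SpecNet.{v}) :
    SpecEyA1.{v} := by
  intro M _ f u φ C a b κ₀ r r₁ e ρ η κ P S hη hηe hηρ hκ hQ hsat
  obtain ⟨V, hV, h⟩ := EyA1M.near hLoc hCut hNet S hη hηe hηρ hκ hQ hsat
  refine ⟨V, hV, ?_⟩
  intro n n' Y Cl c D H G hG hG'
  set W : ℝ := V * ((n' + 1) * Real.exp (κ * n')) ^ (u - 1) with hW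
  have hW0 : 0 ≤ W := by positivity
  calc (G.card : ℝ) = ∑ p ∈ G, (1 : ℝ) := by simp
    _ ≤ ∑ p ∈ G, W * ∑ i, (if Y (c i) ∈ Wl f.symm (16 * C ^ 4 * η) p then D i ^ u else 0) := by
        refine Finset.sum_le_sum fun p hp => ?_
        obtain ⟨s, hs, rfl⟩ := hG p hp
        exact h n' Y Cl c D H s hs
    _ = W * ∑ i, ∑ p ∈ G, (if Y (c i) ∈ Wl f.symm (16 * C ^ 4 * η) p then D i ^ u else 0) := by
        rw [← Finset.mul_sum, Finset.sum_comm]
    _ ≤ W * ∑ i, D i ^ u := by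
        refine mul_le_mul_of_nonneg_left (Finset.sum_le_sum fun i _ => ?_) hW0
        have hnn : 0 ≤ D i ^ u := pow_nonneg (H.nn i) u
        by_cases h1 : ∃ p ∈ G, Y (c i) ∈ Wl f.symm (16 * C ^ 4 * η) p
        · obtain ⟨p, hp, hpY⟩ := h1
          rw [Finset.sum_eq_single_of_mem p hp, if_pos hpY]
          intro p' hp' hne
          refine if_neg fun hcon => ?_
          refine hG' p hp p' hp' hne.symm ?_
          refine Wl_mono ?_ (Wl_trans hpY (Wl_comm hcon))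
          linarith
        · push Not at h1
          rw [Finset.sum_eq_zero fun p hp => if_neg (h1 p hp)]
          exact hnn

end Pool.Agent.Lib.MP610fe3.AC.U1
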