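import Pool.Agent.Lib.MP_610fe3_an.AC.U1.EYON1
import Pool.Agent.Lib.MP_610fe3_an.AC.U1.EyA1
import Pool.Agent.Lib.MP_610fe3_an.AC.CUTM
import Pool.Agent.Lib.MP_610fe3_an.U1.AllP

/-!
# The exponent `2 (u - 1)`: the key estimate and what follows from it
-/

namespace Pool.Agent.Lib.MP610fe3.AC.U1

open AC T7

universe u v

/-- The exponent is not negative. -/
theorem hP1 : ∀ u : ℕ, (0 : ℝ) ≤ 2 * ((u - 1 : ℕ) : ℝ) := fun _ => by positivity

/-- The key estimate with the exponent `2 (u - 1)`. -/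
theorem specEyGenP1 : MP610fe3.U1.SpecEyGenP.{v} (fun u => 2 * ((u - 1 : ℕ) : ℝ)) :=
  specEyGenP1_ofA (specEyA1 specLoc1 specCutM specNet)

/-- The `C^1` theorem on attractors with the exponent `2 (u - 1)`. -/
theorem mfd2P1 : SpecMfd2.{u, v} (fun u => 2 * ((u - 1 : ℕ) : ℝ)) :=
  MP610fe3.U1.mfd2P hP1 specEyGenP1

/-- The `C^2` theorem on attractors with the exponent `2 (u - 1)`. -/
theorem perA2P1 : SpecPerA2.{u, v} (fun u => 2 * ((u - 1 : ℕ) : ℝ)) :=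
  MP610fe3.U1.perA2P hP1 specEyGenP1

/-- The abstract theorem T7 with the exponent `2 (u - 1)`. -/
theorem core7P1 : MP610fe3.U1.SpecCore7P.{v} (fun u => 2 * ((u - 1 : ℕ) : ℝ)) :=
  MP610fe3.U1.core7P hP1 specEyGenP1

end Pool.Agent.Lib.MP610fe3.AC.U1
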