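import Pool.Agent.Lib.MP_610fe3_an.AC.U1.SpecLoc1
import Pool.Agent.Lib.MP_610fe3_an.T6.Cone

/-!
# Module LOC1
-/

open Set Filter Function Metric MeasureTheory
open scoped Topology ENNReal

namespace Pool.Agent.Lib.MP610fe3.AC.U1

open Cf H6 T4 T6

namespace Loc1M

variable {u : ℕ}

/-- The volume of a family of balls with bounded overlap. -/
theorem packF {α : Type*} [DecidableEq α] (S : Finset α) (c : α → EuclideanSpace ℝ (Fin u))
    (r : α → ℝ) (e : EuclideanSpace ℝ (Fin u)) (R Ω : ℝ) (hR : 0 ≤ R) (hr : ∀ i ∈ S, 0 ≤ r i)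
    (hΩ : ∀ x, ((S.filter (fun i => dist (c i) x ≤ r i)).card : ℝ) ≤ Ω)
    (hin : ∀ i ∈ S, dist (c i) e + r i ≤ R) : ∑ i ∈ S, r i ^ u ≤ Ω * R ^ u := by
  classical
  set V : ℝ≥0∞ := volume (closedBall (0 : EuclideanSpace ℝ (Fin u)) 1) with hV
  have hV0 : V ≠ 0 := (measure_closedBall_pos volume _ one_pos).ne'
  have hVt : V ≠ ∞ := measure_closedBall_lt_top.ne
  have hvol : ∀ (x : EuclideanSpace ℝ (Fin u)) {t : ℝ}, 0 ≤ t →
      volume (closedBall x t) = ENNReal.ofReal (t ^ u) * V := by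
    intro x t ht
    rw [Measure.addHaar_closedBall' volume x ht, finrank_euclideanSpace_fin]
  have hΩ0 : 0 ≤ Ω := le_trans (Nat.cast_nonneg _) (hΩ e)
  have h1 : ∑ i ∈ S, volume (closedBall (c i) (r i)) ≤
      ENNReal.ofReal Ω * volume (closedBall e R) := by
    calc ∑ i ∈ S, volume (closedBall (c i) (r i))
        = ∑ i ∈ S, ∫⁻ x, (closedBall (c i) (r i)).indicator (fun _ => (1 : ℝ≥0∞)) x := by
          refine Finset.sum_congr rfl fun i _ => ?_
          rw [lintegral_indicator_const measurableSet_closedBall, one_mul]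
      _ = ∫⁻ x, ∑ i ∈ S, (closedBall (c i) (r i)).indicator (fun _ => (1 : ℝ≥0∞)) x := by
          rw [lintegral_finsetSum _ fun i _ =>
            measurable_const.indicator measurableSet_closedBall]
      _ ≤ ∫⁻ x, (closedBall e R).indicator (fun _ => ENNReal.ofReal Ω) x := by
          refine lintegral_mono fun x => ?_
          by_cases hx : x ∈ closedBall e R
          · rw [indicator_of_mem hx]
            have h2 : ∑ i ∈ S, (closedBall (c i) (r i)).indicator (fun _ => (1 : ℝ≥0∞)) x =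
                ((S.filter (fun i => dist (c i) x ≤ r i)).card : ℝ≥0∞) := by
              rw [Finset.card_filter, Nat.cast_sum]
              refine Finset.sum_congr rfl fun i _ => ?_
              by_cases h : dist (c i) x ≤ r i
              · rw [if_pos h, indicator_of_mem (by rwa [mem_closedBall, dist_comm])]
                simp
              · rw [if_neg h, indicator_of_notMem (by rwa [mem_closedBall, dist_comm])]
                simp
            rw [h2, ← ENNReal.ofReal_natCast]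
            exact ENNReal.ofReal_le_ofReal (hΩ x)
          · rw [indicator_of_notMem hx]
            refine le_of_eq (Finset.sum_eq_zero fun i hi => indicator_of_notMem ?_ _)
            intro h
            refine hx ?_
            rw [mem_closedBall] at h ⊢
            have := hin i hi
            linarith [dist_triangle x (c i) e]
      _ = ENNReal.ofReal Ω * volume (closedBall e R) := by
          rw [lintegral_indicator_const measurableSet_closedBall]
  rw [hvol e hR, Finset.sum_congr rfl fun i hi => hvol (c i) (hr i hi), ← Finset.sum_mul,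
    ← mul_assoc, ENNReal.mul_le_mul_iff_left hV0 hVt,
    ← ENNReal.ofReal_sum_of_nonneg fun i hi => pow_nonneg (hr i hi) u,
    ← ENNReal.ofReal_mul hΩ0] at h1
  exact (ENNReal.ofReal_le_ofReal_iff (by positivity)).1 h1

/-- One shell. -/
theorem shell {α : Type*} [DecidableEq α] (S : Finset α) (c : α → EuclideanSpace ℝ (Fin u))
    (l : α → ℝ) (e : EuclideanSpace ℝ (Fin u)) (θ R Ω : ℝ) (hθ : 0 < θ) (hR : 0 < R)
    (hl : ∀ i ∈ S, 0 ≤ l i)
    (hΩ : ∀ x, ((S.filter (fun i => dist (c i) x ≤ θ * l i)).card : ℝ) ≤ Ω)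
    (hlo : ∀ i ∈ S, R / 2 < max (dist (c i) e) (l i))
    (hhi : ∀ i ∈ S, max (dist (c i) e) (l i) ≤ R) :
    ∑ i ∈ S, (l i / max (dist (c i) e) (l i)) ^ u ≤ Ω * (2 * (1 + θ) / θ) ^ u := by
  have h := packF S c (fun i => θ * l i) e ((1 + θ) * R) Ω (by positivity)
    (fun i hi => mul_nonneg hθ.le (hl i hi)) hΩ (fun i hi => by
      have h1 := hhi i hi
      have h2 : l i ≤ R := (le_max_right _ _).trans h1
      have h3 : dist (c i) e ≤ R := (le_max_left _ _).trans h1
      nlinarith)
  simp only [mul_pow] at h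
  rw [← Finset.mul_sum] at h
  have h5 : ∀ i ∈ S, (l i / max (dist (c i) e) (l i)) ^ u ≤ l i ^ u * (2 / R) ^ u := by
    intro i hi
    rw [← mul_pow]
    have h0 : 0 < max (dist (c i) e) (l i) := lt_trans (by positivity) (hlo i hi)
    apply pow_le_pow_left₀ (div_nonneg (hl i hi) h0.le)
    rw [div_le_iff₀ h0]
    have h6 : 1 ≤ 2 / R * max (dist (c i) e) (l i) := by
      rw [div_mul_eq_mul_div, one_le_div hR]
      linarith [hlo i hi]
    calc l i = l i * 1 := (mul_one _).symm
      _ ≤ l i * (2 / R * max (dist (c i) e) (l i)) := mul_le_mul_of_nonneg_left h6 (hl i hi)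
      _ = l i * (2 / R) * max (dist (c i) e) (l i) := by ring
  have hθu : 0 < θ ^ u := by positivity
  have h7 : ∑ i ∈ S, l i ^ u ≤ Ω * ((1 + θ) ^ u * R ^ u) / θ ^ u := by
    rw [le_div_iff₀ hθu]
    linarith
  calc ∑ i ∈ S, (l i / max (dist (c i) e) (l i)) ^ u
      ≤ ∑ i ∈ S, l i ^ u * (2 / R) ^ u := Finset.sum_le_sum h5
    _ = (∑ i ∈ S, l i ^ u) * (2 / R) ^ u := by rw [Finset.sum_mul]
    _ ≤ Ω * ((1 + θ) ^ u * R ^ u) / θ ^ u * (2 / R) ^ u :=
        mul_le_mul_of_nonneg_right h7 (by positivity)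
    _ = Ω * (2 * (1 + θ) / θ) ^ u := by
      rw [div_pow, div_pow, mul_pow]
      field_simp

/-- The sum over all shells. -/
theorem packTF {α : Type*} [DecidableEq α] (S : Finset α) (c : α → EuclideanSpace ℝ (Fin u))
    (l : α → ℝ) (e : EuclideanSpace ℝ (Fin u)) (θ δ Ω : ℝ) (L : ℕ) (hθ : 0 < θ) (hδ : 0 < δ)
    (hl : ∀ i ∈ S, 0 < l i ∧ l i ≤ δ ∧ δ ≤ 2 ^ L * l i)
    (hΩ : ∀ x, ((S.filter (fun i => dist (c i) x ≤ θ * l i)).card : ℝ) ≤ Ω)
    (hin : ∀ i ∈ S, dist (c i) e ≤ 3 * δ) :
    ∑ i ∈ S, (l i / max (dist (c i) e) (l i)) ^ u ≤ (L + 2) * (Ω * (2 * (1 + θ) / θ) ^ u) := by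
  classical
  set R : α → ℝ := fun i => max (dist (c i) e) (l i) with hRdef
  have hR0 : ∀ i ∈ S, 0 < R i := fun i hi => lt_of_lt_of_le (hl i hi).1 (le_max_right _ _)
  have hex : ∀ i, ∃ k : ℕ, i ∈ S → k < L + 2 ∧ 3 * δ * (1 / 2) ^ k / 2 < R i ∧
      R i ≤ 3 * δ * (1 / 2) ^ k := by
    intro i
    by_cases hi : i ∈ S
    swap
    · exact ⟨0, fun h => absurd h hi⟩
    have hle : R i ≤ 3 * δ := max_le (hin i hi) (by linarith [(hl i hi).2.1])
    obtain ⟨k, h1, h2⟩ := exists_nat_pow_near_of_lt_one (x := R i / (3 * δ)) (y := 1 / 2)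
      (div_pos (hR0 i hi) (by positivity)) ((div_le_one (by positivity)).2 hle) (by norm_num)
      (by norm_num)
    rw [lt_div_iff₀ (by positivity)] at h1
    rw [div_le_iff₀ (by positivity)] at h2
    refine ⟨k, fun _ => ⟨?_, ?_, by linarith⟩⟩
    · by_contra hk
      push Not at hk
      have h3 : ((1 : ℝ) / 2) ^ k ≤ (1 / 2) ^ (L + 2) :=
        pow_le_pow_of_le_one (by norm_num) (by norm_num) hk
      have h4 : l i ≤ R i := le_max_right _ _
      have h5 := (hl i hi).2.2
      have h6 : ((1 : ℝ) / 2) ^ (L + 2) * 2 ^ L = 1 / 4 := by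
        rw [pow_add, mul_right_comm, ← mul_pow]
        norm_num
      have h7 : R i ≤ (1 / 2) ^ (L + 2) * (3 * δ) :=
        h2.trans (mul_le_mul_of_nonneg_right h3 (by positivity))
      have h8 : (2 : ℝ) ^ L * l i ≤ 2 ^ L * ((1 / 2) ^ (L + 2) * (3 * δ)) :=
        mul_le_mul_of_nonneg_left (h4.trans h7) (by positivity)
      have h9 : (2 : ℝ) ^ L * ((1 / 2) ^ (L + 2) * (3 * δ)) = 3 / 4 * δ := by
        calc (2 : ℝ) ^ L * ((1 / 2) ^ (L + 2) * (3 * δ)) =
            ((1 / 2) ^ (L + 2) * 2 ^ L) * (3 * δ) := by ring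
          _ = 3 / 4 * δ := by rw [h6]; ring
      linarith
    · rw [pow_succ] at h1
      linarith
  choose k hk using hex
  rw [← Finset.sum_fiberwise_of_maps_to (s := S) (t := Finset.range (L + 2)) (g := k)
    (fun i hi => Finset.mem_range.2 (hk i hi).1)]
  calc ∑ j ∈ Finset.range (L + 2), ∑ i ∈ S with k i = j,
        (l i / max (dist (c i) e) (l i)) ^ u
      ≤ ∑ j ∈ Finset.range (L + 2), Ω * (2 * (1 + θ) / θ) ^ u := by
        refine Finset.sum_le_sum fun j _ => ?_
        refine shell _ c l e θ (3 * δ * (1 / 2) ^ j) Ω hθ (by positivity)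
          (fun i hi => (hl i (Finset.mem_filter.1 hi).1).1.le) (fun x => ?_) (fun i hi => ?_)
          (fun i hi => ?_)
        · refine le_trans ?_ (hΩ x)
          exact_mod_cast Finset.card_le_card
            (Finset.filter_subset_filter _ (Finset.filter_subset _ _))
        · obtain ⟨h1, rfl⟩ := Finset.mem_filter.1 hi
          exact (hk i h1).2.1
        · obtain ⟨h1, rfl⟩ := Finset.mem_filter.1 hi
          exact (hk i h1).2.2
    _ = (L + 2) * (Ω * (2 * (1 + θ) / θ) ^ u) := by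
        rw [Finset.sum_const, Finset.card_range, nsmul_eq_mul]
        push_cast
        ring

open scoped Classical in
/-- A point which is in few of the sets. -/
theorem exists_avg {ι : Type*} (F : Finset ι) (S : ι → Set (EuclideanSpace ℝ (Fin u)))
    (D v : ι → ℝ) (δ : ℝ) (hδ : 0 < δ) (hS : ∀ i ∈ F, MeasurableSet (S i))
    (hD : ∀ i ∈ F, 0 ≤ D i) (hv : ∀ i ∈ F, 0 ≤ v i)
    (hvol : ∀ i ∈ F, volume (S i) ≤ ENNReal.ofReal (δ ^ u * v i)) :
    ∃ z ∈ closedBall (0 : EuclideanSpace ℝ (Fin u)) δ,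
      ∑ i ∈ F, (if z ∈ S i then D i else 0) ≤
        1 / (volume (closedBall (0 : EuclideanSpace ℝ (Fin u)) 1)).toReal * ∑ i ∈ F, D i * v i := by
  set V : ℝ := (volume (closedBall (0 : EuclideanSpace ℝ (Fin u)) 1)).toReal with hV
  have hV0 : 0 < V :=
    ENNReal.toReal_pos (measure_closedBall_pos _ _ one_pos).ne' measure_closedBall_lt_top.ne
  have hS0 : 0 ≤ ∑ i ∈ F, D i * v i := Finset.sum_nonneg fun i hi => mul_nonneg (hD i hi) (hv i hi)
  set g : EuclideanSpace ℝ (Fin u) → ℝ≥0∞ := fun z => ∑ i ∈ F, ENNReal.ofReal (D i) *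
    (S i).indicator (fun _ => (1 : ℝ≥0∞)) z with hg
  have hmi : ∀ i ∈ F, Measurable (fun z => ENNReal.ofReal (D i) *
      (S i).indicator (fun _ => (1 : ℝ≥0∞)) z) := fun i hi =>
    (measurable_const.indicator (hS i hi)).const_mul _
  have hgm : Measurable g := Finset.measurable_fun_sum _ hmi
  have hvolB : volume (closedBall (0 : EuclideanSpace ℝ (Fin u)) δ) =
      ENNReal.ofReal (δ ^ u * V) := by
    have h := Measure.addHaar_closedBall' (volume : Measure (EuclideanSpace ℝ (Fin u))) 0 hδ.le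
    rw [finrank_euclideanSpace_fin] at h
    rw [h, ENNReal.ofReal_mul (by positivity), hV,
      ENNReal.ofReal_toReal measure_closedBall_lt_top.ne]
  have hvol0 : volume (closedBall (0 : EuclideanSpace ℝ (Fin u)) δ) ≠ 0 :=
    (measure_closedBall_pos _ _ hδ).ne'
  have hvol1 : volume (closedBall (0 : EuclideanSpace ℝ (Fin u)) δ) ≠ ∞ :=
    measure_closedBall_lt_top.ne
  have hint : ∫⁻ z in closedBall (0 : EuclideanSpace ℝ (Fin u)) δ, g z ∂volume ≤
      ENNReal.ofReal (δ ^ u * ∑ i ∈ F, D i * v i) := by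
    calc ∫⁻ z in closedBall (0 : EuclideanSpace ℝ (Fin u)) δ, g z ∂volume ≤
          ∫⁻ z, g z ∂volume := setLIntegral_le_lintegral _ _
      _ = ∑ i ∈ F, ∫⁻ z, ENNReal.ofReal (D i) *
            (S i).indicator (fun _ => (1 : ℝ≥0∞)) z ∂volume := lintegral_finsetSum _ hmi
      _ = ∑ i ∈ F, ENNReal.ofReal (D i) * volume (S i) := by
          refine Finset.sum_congr rfl fun i hi => ?_
          rw [lintegral_const_mul _ (measurable_const.indicator (hS i hi)),
            lintegral_indicator_const (hS i hi), one_mul]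
      _ ≤ ∑ i ∈ F, ENNReal.ofReal (δ ^ u * (D i * v i)) := by
          refine Finset.sum_le_sum fun i hi => ?_
          calc ENNReal.ofReal (D i) * volume (S i)
              ≤ ENNReal.ofReal (D i) * ENNReal.ofReal (δ ^ u * v i) := by
                gcongr
                exact hvol i hi
            _ = ENNReal.ofReal (δ ^ u * (D i * v i)) := by
                rw [← ENNReal.ofReal_mul (hD i hi)]
                congr 1
                ring
      _ = ENNReal.ofReal (δ ^ u * ∑ i ∈ F, D i * v i) := by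
          rw [← ENNReal.ofReal_sum_of_nonneg, ← Finset.mul_sum]
          intro i hi
          exact mul_nonneg (by positivity) (mul_nonneg (hD i hi) (hv i hi))
  obtain ⟨z, hz, hgz⟩ := exists_le_setLAverage (μ := volume) hvol0 hvol1 hgm.aemeasurable.restrict
  refine ⟨z, hz, ?_⟩
  have hgz2 : g z ≤ ENNReal.ofReal (1 / V * ∑ i ∈ F, D i * v i) := by
    refine hgz.trans ?_
    rw [setLAverage_eq, hvolB]
    rw [ENNReal.div_le_iff (by
      rw [← hvolB]; exact hvol0) ENNReal.ofReal_ne_top]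
    refine hint.trans (le_of_eq ?_)
    rw [← ENNReal.ofReal_mul (by positivity)]
    congr 1
    field_simp
  rw [← ENNReal.ofReal_le_ofReal_iff (by positivity)]
  refine le_trans (le_of_eq ?_) hgz2
  rw [ENNReal.ofReal_sum_of_nonneg]
  · rw [hg]
    refine Finset.sum_congr rfl fun i _ => ?_
    by_cases h : z ∈ S i
    · rw [if_pos h, indicator_of_mem h, mul_one]
    · rw [if_neg h, indicator_of_notMem h, mul_zero, ENNReal.ofReal_zero]
  · intro i hi
    split_ifs
    · exact hD i hi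
    · exact le_rfl

/-- `D w ≤ t^m D^(m+1) + (K / t) X`. -/
theorem young1 {D w t K β A X : ℝ} {m : ℕ} (hD : 0 ≤ D) (ht : 0 < t) (hK : 0 ≤ K) (hβ : 0 ≤ β)
    (hw0 : 0 ≤ w) (hw : w ≤ (K * β) ^ m) (hwA : w ≤ A) (hX : β * A ≤ X) :
    D * w ≤ t ^ m * D ^ (m + 1) + K / t * X := by
  have hA : 0 ≤ A := hw0.trans hwA
  have hX0 : 0 ≤ X := (mul_nonneg hβ hA).trans hX
  rcases le_or_gt w ((t * D) ^ m) with h | h
  · have h1 : D * w ≤ D * (t * D) ^ m := mul_le_mul_of_nonneg_left h hD
    have h2 : D * (t * D) ^ m = t ^ m * D ^ (m + 1) := by rw [mul_pow]; ring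
    have h3 : 0 ≤ K / t * X := by positivity
    linarith
  · have h1 : t * D < K * β := by
      refine lt_of_pow_lt_pow_left₀ m (by positivity) (h.trans_le hw)
    have h2 : D ≤ K * β / t := by
      rw [le_div_iff₀ ht]
      linarith
    have h3 : D * w ≤ K * β / t * A := mul_le_mul h2 hwA hw0 (by positivity)
    have h4 : K * β / t * A = K / t * (β * A) := by ring
    have h5 : K / t * (β * A) ≤ K / t * X := mul_le_mul_of_nonneg_left hX (by positivity)
    have h6 : 0 ≤ t ^ m * D ^ (m + 1) := by positivity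
    linarith

open scoped Classical in
/-- The points `z` such that the segment from `e` to `z` meets the neighbourhood of a net. -/
theorem cell (hu : 1 ≤ u) : ∃ C₁ : ℝ, 0 < C₁ ∧ ∀ (T : Finset (EuclideanSpace ℝ (Fin u)))
    (e : EuclideanSpace ℝ (Fin u)) (l K δ : ℝ), 0 < l → l ≤ δ → 1 ≤ K → e ∈ closedBall 0 δ →
    (∀ y ∈ T, dist y 0 ≤ 2 * δ) → (∀ y ∈ T, ∀ y' ∈ T, dist y y' ≤ K * l) →
    ∃ (S : Set (EuclideanSpace ℝ (Fin u))) (w : ℝ), MeasurableSet S ∧ 0 ≤ w ∧
      (∀ z ∈ closedBall (0 : EuclideanSpace ℝ (Fin u)) δ, ∀ x ∈ segment ℝ e z,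
        (∃ y ∈ T, dist x y ≤ l) → z ∈ S) ∧
      volume S ≤ ENNReal.ofReal (δ ^ u * (C₁ * w)) ∧
      ∀ D t : ℝ, 0 ≤ D → 0 < t → D * w ≤ t ^ (u - 1) * (if T.Nonempty then D ^ u else 0) +
        6 * K / t * ∑ y ∈ T, (l / max (dist y e) l) ^ u := by
  obtain ⟨Cc, hCc, hcone⟩ := specCone u hu
  set V : ℝ := (volume (closedBall (0 : EuclideanSpace ℝ (Fin u)) 1)).toReal with hV
  have hV0 : 0 < V :=
    ENNReal.toReal_pos (measure_closedBall_pos _ _ one_pos).ne' measure_closedBall_lt_top.ne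
  refine ⟨max Cc V, lt_max_of_lt_left hCc, ?_⟩
  intro T e l K δ hl hlδ hK he hT hTd
  have hδ : 0 < δ := lt_of_lt_of_le hl hlδ
  rcases T.eq_empty_or_nonempty with rfl | hne
  · refine ⟨∅, 0, MeasurableSet.empty, le_rfl, ?_, by simp, ?_⟩
    · rintro z _ x _ ⟨y, hy, _⟩
      simp at hy
    · intro D t _ _
      simp
  set b : EuclideanSpace ℝ (Fin u) → ℝ := fun y => l / max (dist y e) l with hb
  have hmax : ∀ y, 0 < max (dist y e) l := fun y => lt_max_of_lt_right hl
  have hb0 : ∀ y, 0 < b y := fun y => div_pos hl (hmax y)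
  have hb1 : ∀ y, b y ≤ 1 := fun y => (div_le_one (hmax y)).2 (le_max_right _ _)
  obtain ⟨y₀, hy₀, hmin⟩ := T.exists_min_image b hne
  set A : ℝ := ∑ y ∈ T, b y ^ (u - 1) with hA
  set B : ℝ := (6 * K * b y₀) ^ (u - 1) with hB
  have hA0 : 0 ≤ A := Finset.sum_nonneg fun y _ => pow_nonneg (hb0 y).le _
  have hB0 : 0 ≤ B := pow_nonneg (by have := hb0 y₀; positivity) _
  choose Ty hTm hTz hTv using fun (y : EuclideanSpace ℝ (Fin u)) => hcone e y 0 l δ hl hlδ he
  -- the second set
  have h2 : ∃ S₂ : Set (EuclideanSpace ℝ (Fin u)), MeasurableSet S₂ ∧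
      (∀ z ∈ closedBall (0 : EuclideanSpace ℝ (Fin u)) δ, ∀ x ∈ segment ℝ e z,
        (∃ y ∈ T, dist x y ≤ l) → z ∈ S₂) ∧
      volume S₂ ≤ ENNReal.ofReal (δ ^ u * (max Cc V * B)) := by
    rcases le_or_gt ((K + 1) * l) δ with hc | hc
    · obtain ⟨S₂, h1, h2, h3⟩ := hcone e y₀ 0 ((K + 1) * l) δ (by positivity) hc he
      refine ⟨S₂, h1, ?_, h3.trans (ENNReal.ofReal_le_ofReal ?_)⟩
      · rintro z hz x hx ⟨y, hy, hxy⟩
        refine h2 z hz x hx ?_
        have := hTd y hy y₀ hy₀
        linarith [dist_triangle x y y₀]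
      · have h4 : (K + 1) * l / max (dist y₀ e) ((K + 1) * l) ≤ 6 * K * b y₀ := by
          have h5 : max (dist y₀ e) l ≤ max (dist y₀ e) ((K + 1) * l) := by
            apply max_le_max_left
            nlinarith
          calc (K + 1) * l / max (dist y₀ e) ((K + 1) * l)
              ≤ (K + 1) * l / max (dist y₀ e) l :=
                div_le_div_of_nonneg_left (by positivity) (hmax y₀) h5
            _ = (K + 1) * b y₀ := by rw [hb]; ring
            _ ≤ 6 * K * b y₀ := by
                have := hb0 y₀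
                nlinarith
        have h6 : ((K + 1) * l / max (dist y₀ e) ((K + 1) * l)) ^ (u - 1) ≤ B := by
          apply pow_le_pow_left₀ _ h4
          have : 0 < max (dist y₀ e) ((K + 1) * l) := lt_max_of_lt_right (by positivity)
          positivity
        calc Cc * δ ^ u * ((K + 1) * l / max (dist y₀ e) ((K + 1) * l)) ^ (u - 1)
            ≤ Cc * δ ^ u * B := by gcongr
          _ = δ ^ u * (Cc * B) := by ring
          _ ≤ δ ^ u * (max Cc V * B) := by
              gcongr
              exact le_max_left _ _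
    · refine ⟨closedBall 0 δ, measurableSet_closedBall, fun z hz _ _ _ => hz, ?_⟩
      have h := Measure.addHaar_closedBall' (volume : Measure (EuclideanSpace ℝ (Fin u))) 0 hδ.le
      rw [finrank_euclideanSpace_fin] at h
      rw [h, ← ENNReal.ofReal_toReal (measure_closedBall_lt_top (x := (0 : EuclideanSpace ℝ (Fin u)))
        (r := 1)).ne, ← ENNReal.ofReal_mul (by positivity)]
      apply ENNReal.ofReal_le_ofReal
      have h5 : 1 ≤ B := by
        apply one_le_pow₀
        have h6 : dist y₀ e ≤ 3 * δ := by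
          have h7 := hT y₀ hy₀
          have h8 : dist e 0 ≤ δ := he
          rw [dist_comm] at h8
          linarith [dist_triangle y₀ 0 e]
        have h9 : max (dist y₀ e) l ≤ 3 * δ := max_le h6 (by linarith)
        have h10 : max (dist y₀ e) l ≤ 3 * ((K + 1) * l) := h9.trans (by linarith)
        rw [hb]
        simp only
        rw [mul_div_assoc', one_le_div (hmax y₀)]
        nlinarith
      have h11 : V ≤ max Cc V * B := by
        calc V = V * 1 := (mul_one _).symm
          _ ≤ max Cc V * B := by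
              gcongr
              exact le_max_right _ _
      gcongr
  obtain ⟨S₂, hS₂m, hS₂z, hS₂v⟩ := h2
  refine ⟨(⋃ y ∈ T, Ty y) ∩ S₂, min A B, ?_, le_min hA0 hB0, ?_, ?_, ?_⟩
  · exact (Finset.measurableSet_biUnion _ fun y _ => hTm y).inter hS₂m
  · rintro z hz x hx ⟨y, hy, hxy⟩
    exact ⟨mem_iUnion₂.2 ⟨y, hy, hTz y z hz x hx hxy⟩, hS₂z z hz x hx ⟨y, hy, hxy⟩⟩
  · rw [mul_min_of_nonneg _ _ (by positivity), mul_min_of_nonneg _ _ (by positivity)]
    refine le_trans ?_ (le_of_eq (ENNReal.ofReal_min _ _).symm)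
    refine le_min ?_ ((measure_mono inter_subset_right).trans hS₂v)
    refine (measure_mono inter_subset_left).trans ((measure_biUnion_finset_le _ _).trans ?_)
    rw [hA, Finset.mul_sum, Finset.mul_sum, ENNReal.ofReal_sum_of_nonneg]
    · refine Finset.sum_le_sum fun y _ => (hTv y).trans (ENNReal.ofReal_le_ofReal ?_)
      have := hb0 y
      calc Cc * δ ^ u * (l / max (dist y e) l) ^ (u - 1) = δ ^ u * (Cc * b y ^ (u - 1)) := by
            rw [hb]; ring
        _ ≤ δ ^ u * (max Cc V * b y ^ (u - 1)) := by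
            gcongr
            exact le_max_left _ _
    · intro y _
      have := hb0 y
      positivity
  · intro D t hD ht
    rw [if_pos hne]
    have h3 : b y₀ * A ≤ ∑ y ∈ T, b y ^ u := by
      rw [hA, Finset.mul_sum]
      refine Finset.sum_le_sum fun y hy => ?_
      have h4 : b y ^ u = b y * b y ^ (u - 1) := by
        rw [← pow_succ']
        congr 1
        omega
      rw [h4]
      exact mul_le_mul_of_nonneg_right (hmin y hy) (pow_nonneg (hb0 y).le _)
    have h5 := young1 (m := u - 1) hD ht (by positivity : 0 ≤ 6 * K) (hb0 y₀).le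
      (le_min hA0 hB0) (min_le_right A B) (min_le_left A B) h3
    rwa [Nat.sub_add_cancel hu] at h5

end Loc1M

open Loc1M in
/-- Module LOC1. -/
theorem specLoc1 : SpecLoc1 := by
  classical
  intro u θ hu hθ
  obtain ⟨C₁, hC₁, hcell⟩ := cell hu
  set V : ℝ := (volume (closedBall (0 : EuclideanSpace ℝ (Fin u)) 1)).toReal with hV
  have hV0 : 0 < V :=
    ENNReal.toReal_pos (measure_closedBall_pos _ _ one_pos).ne' measure_closedBall_lt_top.ne
  set Q : ℝ := (2 * (1 + θ) / θ) ^ u with hQ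
  have hQ0 : 0 < Q := by positivity
  set G : ℝ := 1 / V * C₁ with hG
  have hG0 : 0 < G := by positivity
  refine ⟨8 * G * (96 * G * Q) ^ (u - 1), by positivity, ?_⟩
  intro ι _ T D l e₂ K δ Ω L hK hδ hΩ hD hl hTd hov he₂ hmeet
  set T' : ι → Finset (EuclideanSpace ℝ (Fin u)) := fun i => (T i).filter (fun y => dist y 0 ≤ 2 * δ)
    with hT'
  set ee : Bool → EuclideanSpace ℝ (Fin u) := fun s => if s then 0 else e₂ with hee
  have hee0 : ∀ s, ee s ∈ closedBall (0 : EuclideanSpace ℝ (Fin u)) δ := by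
    intro s
    cases s
    · exact he₂
    · exact mem_closedBall_self hδ.le
  choose S w hSm hw0 hSz hSv hSy using fun (α : Bool × ι) =>
    hcell (T' α.2) (ee α.1) (l α.2) K δ (hl α.2).1 (hl α.2).2.1 hK (hee0 α.1)
      (fun y hy => (Finset.mem_filter.1 hy).2)
      (fun y hy y' hy' => hTd α.2 y (Finset.mem_filter.1 hy).1 y' (Finset.mem_filter.1 hy').1)
  obtain ⟨z, hz, hzs⟩ := exists_avg (Finset.univ : Finset (Bool × ι)) S (fun α => D α.2)
    (fun α => C₁ * w α) δ hδ (fun α _ => hSm α) (fun α _ => hD α.2)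
    (fun α _ => mul_nonneg hC₁.le (hw0 α)) (fun α _ => hSv α)
  -- the weights met by the path
  have h1 : 1 / 2 ≤ ∑ α : Bool × ι, (if z ∈ S α then D α.2 else 0) := by
    refine (hmeet z hz).trans ?_
    rw [Fintype.sum_prod_type, Fintype.sum_bool]
    rw [← Finset.sum_add_distrib]
    refine Finset.sum_le_sum fun i _ => ?_
    have hnn : ∀ s : Bool, 0 ≤ (if z ∈ S (s, i) then D i else 0) := by
      intro s
      split_ifs
      · exact hD i
      · exact le_rfl
    by_cases h : ∃ x ∈ segment ℝ 0 z ∪ segment ℝ z e₂, ∃ y ∈ T i, dist x y ≤ l i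
    · rw [if_pos h]
      obtain ⟨x, hx, y, hy, hxy⟩ := h
      have hxδ : x ∈ closedBall (0 : EuclideanSpace ℝ (Fin u)) δ := by
        rcases hx with hx | hx
        · exact (convex_closedBall _ _).segment_subset (mem_closedBall_self hδ.le) hz hx
        · exact (convex_closedBall _ _).segment_subset hz he₂ hx
      have hyT : y ∈ T' i := by
        refine Finset.mem_filter.2 ⟨hy, ?_⟩
        rw [mem_closedBall] at hxδ
        have h2 := (hl i).2.1
        rw [dist_comm] at hxy
        linarith [dist_triangle y x 0]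
      rcases hx with hx | hx
      · have h3 : z ∈ S (true, i) := hSz (true, i) z hz x hx ⟨y, hyT, hxy⟩
        have h4 := hnn false
        simp only [h3, if_true]
        linarith
      · rw [segment_symm] at hx
        have h3 : z ∈ S (false, i) := hSz (false, i) z hz x hx ⟨y, hyT, hxy⟩
        have h4 := hnn true
        simp only [h3, if_true]
        linarith
    · rw [if_neg h]
      exact add_nonneg (hnn _) (hnn _)
  -- the sums of the shells
  set t : ℝ := 96 * G * Q * (Ω * K * (L + 1)) with ht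
  have ht0 : 0 < t := by positivity
  set Z : ℝ := ∑ i, (if (∃ y ∈ T i, dist y 0 ≤ 2 * δ) then D i ^ u else 0) with hZ
  have hne : ∀ i, (T' i).Nonempty ↔ ∃ y ∈ T i, dist y 0 ≤ 2 * δ := by
    intro i
    simp only [hT', Finset.Nonempty, Finset.mem_filter]
  have hshell : ∀ s : Bool, ∑ i, ∑ y ∈ T' i, (l i / max (dist y (ee s)) (l i)) ^ u ≤
      (L + 2) * (Ω * Q) := by
    intro s
    rw [← Finset.sum_sigma (Finset.univ : Finset ι) T'
      (fun α => (l α.1 / max (dist α.2 (ee s)) (l α.1)) ^ u)]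
    refine packTF _ (fun α : (Σ _ : ι, EuclideanSpace ℝ (Fin u)) => α.2) (fun α => l α.1) (ee s)
      θ δ Ω L hθ hδ (fun α _ => hl α.1) (fun x => ?_) (fun α hα => ?_)
    · refine le_trans ?_ (hov x)
      refine Nat.cast_le.2 (Finset.card_le_card (Finset.filter_subset_filter _ ?_))
      exact Finset.sigma_mono (Finset.Subset.refl _) fun i => Finset.filter_subset _ _
    · have h2 := (Finset.mem_filter.1 (Finset.mem_sigma.1 hα).2).2
      have h3 : dist (ee s) 0 ≤ δ := hee0 s
      rw [dist_comm] at h3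
      linarith [dist_triangle α.2 0 (ee s)]
  -- Young
  have h2 : ∑ α : Bool × ι, D α.2 * (C₁ * w α) ≤
      C₁ * (2 * t ^ (u - 1) * Z + 6 * K / t * (2 * ((L + 2) * (Ω * Q)))) := by
    have h3 : ∀ s : Bool, ∑ i, D i * (C₁ * w (s, i)) ≤
        C₁ * (t ^ (u - 1) * Z + 6 * K / t * ((L + 2) * (Ω * Q))) := by
      intro s
      calc ∑ i, D i * (C₁ * w (s, i)) = C₁ * ∑ i, D i * w (s, i) := by
            rw [Finset.mul_sum]
            refine Finset.sum_congr rfl fun i _ => by ring
        _ ≤ C₁ * ∑ i, (t ^ (u - 1) * (if (∃ y ∈ T i, dist y 0 ≤ 2 * δ) then D i ^ u else 0) +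
              6 * K / t * ∑ y ∈ T' i, (l i / max (dist y (ee s)) (l i)) ^ u) := by
            refine mul_le_mul_of_nonneg_left (Finset.sum_le_sum fun i _ => ?_) hC₁.le
            have h4 := hSy (s, i) (D i) t (hD i) ht0
            simp only [hne] at h4
            exact h4
        _ = C₁ * (t ^ (u - 1) * Z +
              6 * K / t * ∑ i, ∑ y ∈ T' i, (l i / max (dist y (ee s)) (l i)) ^ u) := by
            rw [Finset.sum_add_distrib, ← Finset.mul_sum, ← Finset.mul_sum]
        _ ≤ C₁ * (t ^ (u - 1) * Z + 6 * K / t * ((L + 2) * (Ω * Q))) := by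
            gcongr
            exact hshell s
    rw [Fintype.sum_prod_type, Fintype.sum_bool]
    have h4 := h3 true
    have h5 := h3 false
    calc _ ≤ C₁ * (t ^ (u - 1) * Z + 6 * K / t * ((L + 2) * (Ω * Q))) +
          C₁ * (t ^ (u - 1) * Z + 6 * K / t * ((L + 2) * (Ω * Q))) := add_le_add h4 h5
      _ = _ := by ring
  have h3 : 1 / 2 ≤ G * (2 * t ^ (u - 1) * Z + 6 * K / t * (2 * ((L + 2) * (Ω * Q)))) := by
    calc (1 : ℝ) / 2 ≤ 1 / V * ∑ α : Bool × ι, D α.2 * (C₁ * w α) := h1.trans hzs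
      _ ≤ 1 / V * (C₁ * (2 * t ^ (u - 1) * Z + 6 * K / t * (2 * ((L + 2) * (Ω * Q))))) := by
          gcongr
      _ = _ := by rw [hG]; ring
  have h4 : G * (6 * K / t * (2 * ((L + 2) * (Ω * Q)))) ≤ 1 / 4 := by
    have h5 : (L : ℝ) + 2 ≤ 2 * (L + 1) := by
      have : (0 : ℝ) ≤ L := Nat.cast_nonneg L
      linarith
    calc G * (6 * K / t * (2 * ((L + 2) * (Ω * Q))))
        ≤ G * (6 * K / t * (2 * ((2 * (L + 1)) * (Ω * Q)))) := by gcongr
      _ = 1 / 4 := by
          rw [ht]
          field_simp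
          norm_num
  have h5 : 1 / 4 ≤ G * (2 * t ^ (u - 1) * Z) := by
    rw [mul_add] at h3
    linarith
  calc (1 : ℝ) ≤ 4 * (G * (2 * t ^ (u - 1) * Z)) := by linarith
    _ = 8 * G * (96 * G * Q) ^ (u - 1) * (Ω * K * (L + 1)) ^ (u - 1) * Z := by
        rw [ht, mul_pow (96 * G * Q)]
        ring

end Pool.Agent.Lib.MP610fe3.AC.U1
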