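import Pool.Agent.Lib.MP_610fe3_an.AC.U1.SpecLoc1
import Pool.Agent.Lib.MP_610fe3_an.T6.Basic
import Pool.Agent.Lib.MP_610fe3_an.T6.Tr

/-!
# Module NET: nets of Bowen balls
-/

open Set Filter Function Metric MeasureTheory
open scoped Topology ENNReal

namespace Pool.Agent.Lib.MP610fe3.AC.U1

open Cf H6 T4 T6

universe v

namespace NetM

/-- A maximal separated subset of a compact set. -/
theorem exists_net {M : Type v} [MetricSpace M] {H : Set M} (hH : IsCompact H) {t : ℝ} (ht : 0 < t) :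
    ∃ T : Finset M, (∀ y ∈ T, y ∈ H) ∧ (∀ x ∈ H, ∃ y ∈ T, dist x y ≤ t) ∧
      ∀ y ∈ T, ∀ y' ∈ T, y ≠ y' → t < dist y y' := by
  classical
  obtain ⟨s, -, hsf, hs⟩ := finite_cover_balls_of_compact hH (show (0 : ℝ) < t / 2 by positivity)
  have hc : ∀ x : M, ∃ y, x ∈ H → y ∈ s ∧ dist x y < t / 2 := by
    intro x
    by_cases hx : x ∈ H
    · have := hs hx
      simp only [mem_iUnion, mem_ball, exists_prop] at this
      obtain ⟨y, h1, h2⟩ := this
      exact ⟨y, fun _ => ⟨h1, h2⟩⟩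
    · exact ⟨x, fun h => absurd h hx⟩
  choose g hg using hc
  set Q : ℕ → Prop := fun m => ∃ T : Finset M, T.card = m ∧ (∀ y ∈ T, y ∈ H) ∧
    (∀ y ∈ T, ∀ y' ∈ T, y ≠ y' → t < dist y y') with hQ
  have hQ0 : Q 0 := ⟨∅, by simp, by simp, by simp⟩
  obtain ⟨m, hm, hmax⟩ : ∃ m, Q m ∧ ∀ k, Q k → k ≤ m := by
    have hfin : {k | Q k}.Finite := (Set.finite_Iic hsf.toFinset.card).subset fun k hk => by
      obtain ⟨T, rfl, h1, h2⟩ := hk
      refine Finset.card_le_card_of_injOn g (fun x hx => ?_) (fun x hx y hy hxy => ?_)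
      · simpa using (hg x (h1 x hx)).1
      · by_contra hne
        have h3 := h2 x hx y hy hne
        have h4 := (hg x (h1 x hx)).2
        have h5 := (hg y (h1 y hy)).2
        rw [← hxy, dist_comm] at h5
        linarith [dist_triangle x (g x) y]
    obtain ⟨k₀, h1, h2⟩ := hfin.exists_maximal ⟨0, hQ0⟩
    refine ⟨k₀, h1, fun k hk => ?_⟩
    by_contra hlt
    push Not at hlt
    exact absurd (h2 hk hlt.le) (by omega)
  obtain ⟨T, hTm, hTH, hT⟩ := hm
  refine ⟨T, hTH, fun x hx => ?_, hT⟩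
  by_contra hcon
  push Not at hcon
  have hxT : x ∉ T := fun h => by
    have := hcon x h
    rw [dist_self] at this
    linarith
  have h1 : Q (T.card + 1) := by
    refine ⟨insert x T, Finset.card_insert_of_notMem hxT, ?_, ?_⟩
    · intro y hy
      rcases Finset.mem_insert.1 hy with rfl | hy
      · exact hx
      · exact hTH y hy
    · intro y hy y' hy' hne
      rcases Finset.mem_insert.1 hy with h1 | h1
      · rcases Finset.mem_insert.1 hy' with h2 | h2
        · exact absurd (h1.trans h2.symm) hne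
        · rw [h1]
          exact hcon y' h2
      · rcases Finset.mem_insert.1 hy' with h2 | h2
        · rw [h2, dist_comm]
          exact hcon y h1
        · exact hT y h1 y' h2 hne
  have := hmax _ h1
  omega

/-- The diameter of a connected set covered by balls. -/
theorem conn_card {M : Type v} [MetricSpace M] {H : Set M} (hH : IsPreconnected H) {T : Finset M}
    {t : ℝ} (ht : 0 ≤ t) (hcov : ∀ x ∈ H, ∃ y ∈ T, dist x y ≤ t) {p q : M} (hp : p ∈ H)
    (hq : q ∈ H) : dist p q ≤ 2 * t * T.card := by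
  have h1 : IsPreconnected ((fun x => dist x p) '' H) :=
    hH.image _ (by fun_prop : Continuous fun x => dist x p).continuousOn
  have h2 : Icc 0 (dist q p) ⊆ (fun x => dist x p) '' H :=
    h1.Icc_subset ⟨p, hp, dist_self p⟩ ⟨q, hq, rfl⟩
  have h3 : (fun x => dist x p) '' H ⊆ ⋃ y ∈ T, Icc (dist y p - t) (dist y p + t) := by
    rintro _ ⟨x, hx, rfl⟩
    obtain ⟨y, hy, hxy⟩ := hcov x hx
    refine mem_iUnion₂.2 ⟨y, hy, ?_, ?_⟩
    · show dist y p - t ≤ dist x p
      have h4 := dist_triangle y x p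
      rw [dist_comm] at hxy
      linarith
    · show dist x p ≤ dist y p + t
      linarith [dist_triangle x y p]
  have h4 : volume (Icc 0 (dist q p)) ≤ ENNReal.ofReal (2 * t * T.card) := by
    calc volume (Icc 0 (dist q p)) ≤ volume (⋃ y ∈ T, Icc (dist y p - t) (dist y p + t)) :=
          measure_mono (h2.trans h3)
      _ ≤ ∑ y ∈ T, volume (Icc (dist y p - t) (dist y p + t)) := measure_biUnion_finset_le _ _
      _ = ∑ _y ∈ T, ENNReal.ofReal (2 * t) := by
          refine Finset.sum_congr rfl fun y _ => ?_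
          rw [Real.volume_Icc]
          congr 1
          ring
      _ = ENNReal.ofReal (2 * t * T.card) := by
          rw [Finset.sum_const, nsmul_eq_mul, mul_comm (2 * t), ENNReal.ofReal_mul
            (Nat.cast_nonneg T.card), ENNReal.ofReal_natCast]
  rw [Real.volume_Icc, sub_zero, ENNReal.ofReal_le_ofReal_iff (by positivity)] at h4
  rwa [dist_comm]

variable {M : Type v} [MetricSpace M] {f : M ≃ₜ M} {u : ℕ}
  {φ : M → EuclideanSpace ℝ (Fin u) → M} {C a b κ₀ r r₁ e ρ η : ℝ}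

/-- The hull of a Bowen ball. -/
def Hull (f : M ≃ₜ M) (φ : M → EuclideanSpace ℝ (Fin u) → M) (t : ℝ) (n : ℕ) (g : M) : Set M :=
  f.symm^[n] '' (φ (f^[n] g) '' closedBall 0 t)

theorem hull_cont (S : Sys f u φ C a b κ₀ r r₁ e ρ) (x : M) {t : ℝ} (ht : t ≤ ρ) :
    ContinuousOn (φ x) (closedBall 0 t) := by
  have hC := S.C1
  have h1 : LipschitzOnWith (Real.toNNReal C) (φ x) (closedBall 0 ρ) := by
    refine LipschitzOnWith.of_dist_le_mul fun y hy z hz => ?_
    rw [Real.coe_toNNReal C (by linarith)]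
    exact S.upper x y hy z hz
  exact h1.continuousOn.mono (closedBall_subset_closedBall ht)

theorem hull_compact (S : Sys f u φ C a b κ₀ r r₁ e ρ) {t : ℝ} (ht : t ≤ ρ) (n : ℕ) (g : M) :
    IsCompact (Hull f φ t n g) :=
  ((isCompact_closedBall _ _).image_of_continuousOn (hull_cont S _ ht)).image
    (f.symm.continuous.iterate n)

theorem hull_conn (S : Sys f u φ C a b κ₀ r r₁ e ρ) {t : ℝ} (ht : t ≤ ρ) (n : ℕ) (g : M) :
    IsPreconnected (Hull f φ t n g) :=
  ((convex_closedBall _ _).isPreconnected.image _ (hull_cont S _ ht)).image _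
    (f.symm.continuous.iterate n).continuousOn

theorem hull_mem (S : Sys f u φ C a b κ₀ r r₁ e ρ) {t : ℝ} (ht : t ≤ ρ) {n : ℕ} {g y : M}
    (hy : y ∈ Hull f φ t n g) :
    y ∈ Wl f.symm (C ^ 2 * t) g ∧ ∀ k ≤ n, dist (f^[k] y) (f^[k] g) ≤ C ^ 2 * t := by
  obtain ⟨_, ⟨s, hs, rfl⟩, rfl⟩ := hy
  have hC := S.C1
  have hC0 : 0 < C := by linarith
  have hs' : ‖s‖ ≤ t := mem_closedBall_zero_iff.1 hs
  have h1 : φ (f^[n] g) s ∈ Wl f.symm (C ^ 2 * t) (f^[n] g) := by
    refine S.mem_small _ (mem_closedBall_zero_iff.2 (hs'.trans ht)) ?_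
    gcongr
  refine ⟨?_, fun k hk => ?_⟩
  · have := Wl_iter h1 n
    rwa [TrM.sii] at this
  · rw [TrM.iis_le f hk]
    have h2 := h1 (n - k)
    rwa [TrM.sii_le f (Nat.sub_le _ _), Nat.sub_sub_self hk] at h2

theorem sub_hull (S : Sys f u φ C a b κ₀ r r₁ e ρ) {t : ℝ} (ht : C * t ≤ 4 * e) {n : ℕ} {g p : M}
    (hp : p ∈ Wl f.symm e g) (hpB : ∀ k ≤ n, dist (f^[k] p) (f^[k] g) ≤ t) :
    p ∈ Hull f φ (C * t) n g := by
  have hC := S.C1
  have hC0 : 0 < C := by linarith
  have he := S.e_pos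
  have her := S.e_le_r
  have h0 : 0 ≤ t := dist_nonneg.trans (hpB 0 (Nat.zero_le _))
  have htr : t ≤ r := by nlinarith
  have h1 : f^[n] p ∈ Wl f.symm r (f^[n] g) :=
    TrM.wl_iter (Wl_mono (by linarith) hp) fun j hj => (hpB j hj).trans htr
  have h2 : f^[n] p ∈ Wl f.symm (C * t) (f^[n] g) := by
    refine S.wl_un h1 ?_
    have := hpB n le_rfl
    gcongr
  obtain ⟨s, -, hs, hsp⟩ := S.onto_small (Wl_mono ht h2)
  refine ⟨f^[n] p, ⟨s, ?_, hsp⟩, TrM.sii f n p⟩
  rw [mem_closedBall_zero_iff]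
  refine hs.trans ?_
  have := hpB n le_rfl
  gcongr

end NetM

open NetM in
/-- Module NET. -/
theorem specNet : SpecNet.{v} := by
  intro M _ f u φ C a b κ₀ r r₁ e ρ η lam₀ κ P S hη hlam₀ hηe hηρ hκ hQ hsat
  have hC := S.C1
  have hC0 : 0 < C := by linarith
  have he := S.e_pos
  have her := S.e_le_r
  have hC13 : C ≤ C ^ 3 := by
    calc C = C ^ 1 := (pow_one C).symm
      _ ≤ C ^ 3 := pow_le_pow_right₀ hC (by norm_num)
  have hC3 : 1 ≤ C ^ 3 := one_le_pow₀ hC
  have hC3η : 0 < C ^ 3 * η := by positivity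
  have hCη : C * η ≤ C ^ 3 * η := by gcongr
  have hCρ : C * η ≤ ρ := by linarith
  obtain ⟨Cc, hCc, hcell⟩ := hQ (3 * C ^ 3 * η) (C ^ 3 * η) (by positivity) (by linarith) hC3η
  set R : ℝ := 2 * C ^ 3 * η with hR
  have hR0 : 0 < R := by positivity
  have hp1 : 0 < 2 * R / lam₀ := by positivity
  have hp2 : 0 < 1 / lam₀ := by positivity
  have hp3 : 0 < 1 / (C ^ 3 * η) := by positivity
  set C₁ : ℝ := 1 + 2 * R / lam₀ + Cc + 1 / lam₀ + 1 / (C ^ 3 * η) with hC₁
  have hC₁1 : 1 ≤ C₁ := by linarith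
  have hC₁0 : 0 < C₁ := by linarith
  refine ⟨C₁, hC₁1, fun n g hg => ?_⟩
  set H : Set M := Hull f φ (C * η) n g with hH
  have hHm : ∀ y ∈ H, y ∈ Wl f.symm (C ^ 3 * η) g ∧
      ∀ k ≤ n, dist (f^[k] y) (f^[k] g) ≤ C ^ 3 * η := by
    intro y hy
    have h1 : C ^ 2 * (C * η) = C ^ 3 * η := by ring
    have := hull_mem S hCρ hy
    rwa [h1] at this
  set A : Set ℝ := {d | ∃ y ∈ H, ∃ z ∈ Wl f.symm e g,
    (∃ k ≤ n, R < dist (f^[k] z) (f^[k] g)) ∧ d = dist y z} with hA
  set lam : ℝ := sInf (insert lam₀ A) with hlam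
  have hbdd : BddBelow (insert lam₀ A) := by
    refine ⟨0, ?_⟩
    rintro d (rfl | ⟨y, _, z, _, _, rfl⟩)
    · exact hlam₀.le
    · exact dist_nonneg
  have hne : (insert lam₀ A).Nonempty := ⟨lam₀, mem_insert _ _⟩
  have hle : lam ≤ lam₀ := csInf_le hbdd (mem_insert _ _)
  have hgap : ∀ y ∈ H, ∀ z ∈ Wl f.symm e g, (∃ k ≤ n, R < dist (f^[k] z) (f^[k] g)) →
      lam ≤ dist y z := fun y hy z hz h =>
    csInf_le hbdd (mem_insert_of_mem _ ⟨y, hy, z, hz, h, rfl⟩)
  have hCn : 0 < C ^ n := by positivity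
  have hlow : 1 / (C₁ * C ^ n) ≤ lam := by
    refine le_csInf hne ?_
    rintro d (rfl | ⟨y, hy, z, hz, ⟨k, hk, hkR⟩, rfl⟩)
    · have h1 : 1 ≤ C ^ n := one_le_pow₀ hC
      rw [div_le_iff₀ (by positivity)]
      have h2 : 1 / d ≤ C₁ := by linarith
      rw [div_le_iff₀ hlam₀] at h2
      nlinarith
    · have h1 := (hHm y hy).2 k hk
      have h2 : C ^ 3 * η < dist (f^[k] y) (f^[k] z) := by
        have := dist_triangle (f^[k] z) (f^[k] y) (f^[k] g)
        rw [dist_comm (f^[k] z) (f^[k] y)] at this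
        linarith
      have h3 := S.lip_iter y z k
      have h4 : C ^ k ≤ C ^ n := pow_le_pow_right₀ hC hk
      have h5 : C ^ 3 * η ≤ C ^ n * dist y z := by
        refine (h2.le.trans h3).trans ?_
        gcongr
      rw [div_le_iff₀ (by positivity)]
      have h6 : 1 / (C ^ 3 * η) ≤ C₁ := by linarith
      rw [div_le_iff₀ hC3η] at h6
      calc (1 : ℝ) ≤ C₁ * (C ^ 3 * η) := h6
        _ ≤ C₁ * (C ^ n * dist y z) := by gcongr
        _ = dist y z * (C₁ * C ^ n) := by ring
  have hlam0 : 0 < lam := lt_of_lt_of_le (by positivity) hlow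
  obtain ⟨T, hTH, hTc, hTs⟩ := exists_net (hull_compact S hCρ n g) hlam0
  refine ⟨lam, T, hlam0, hle, ?_, fun y hy => hHm y (hTH y hy), ?_, hTs, ?_, ?_, ?_⟩
  · rw [div_le_iff₀ (by positivity)] at hlow
    linarith
  · intro p hp hpB
    exact hTc p (sub_hull S (by linarith) hp hpB)
  · -- diameter
    intro p hp q hq hpB hqB
    have h0 : 0 < C₁ * Real.exp (κ * n) := by positivity
    have hexp : 1 ≤ Real.exp (κ * n) := Real.one_le_exp (by positivity)
    have h1 : dist p q / (C₁ * Real.exp (κ * n)) ≤ lam := by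
      refine le_csInf hne ?_
      rintro d (rfl | ⟨y, hy, z, hz, ⟨k, hk, hkR⟩, rfl⟩)
      · rw [div_le_iff₀ h0]
        have h2 := hpB 0 (Nat.zero_le _)
        have h3 := hqB 0 (Nat.zero_le _)
        simp only [iterate_zero, id_eq] at h2 h3
        rw [dist_comm] at h3
        have h4 : dist p q ≤ 2 * R := by
          rw [hR]
          linarith [dist_triangle p g q]
        have h5 : 2 * R / d ≤ C₁ := by linarith
        rw [div_le_iff₀ hlam₀] at h5
        calc dist p q ≤ C₁ * d := h4.trans h5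
          _ = d * (C₁ * 1) := by ring
          _ ≤ d * (C₁ * Real.exp (κ * n)) := by gcongr
      · rw [div_le_iff₀ h0]
        obtain ⟨hy1, hy2⟩ := hHm y hy
        have hyP : y ∈ P := hsat g hg y (Wl_mono (by linarith) hy1)
        have hW : ∀ x ∈ Wl f.symm e g, x ∈ Wl f.symm (2 * e) y := fun x hx =>
          Wl_mono (by linarith) (Wl_trans (Wl_comm hy1) hx)
        have hB : ∀ x, (∀ k ≤ n, dist (f^[k] x) (f^[k] g) ≤ 2 * C ^ 3 * η) →
            ∀ k ≤ n, dist (f^[k] x) (f^[k] y) ≤ 3 * C ^ 3 * η := by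
          intro x hx k hk
          have h2 := hx k hk
          have h3 := hy2 k hk
          rw [dist_comm] at h3
          linarith [dist_triangle (f^[k] x) (f^[k] g) (f^[k] y)]
        have h2 := hcell n y hyP z p q (hW p hp) (hW q hq) (hW z hz) (hB p hpB) (hB q hqB)
          ⟨k, hk, by
            have h3 := hy2 k hk
            have h4 := dist_triangle (f^[k] z) (f^[k] y) (f^[k] g)
            rw [dist_comm (f^[k] z) (f^[k] y)] at h4
            linarith⟩
        have h3 : Cc ≤ C₁ := by linarith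
        calc dist p q ≤ Cc * Real.exp (κ * n) * dist y z := h2
          _ ≤ C₁ * Real.exp (κ * n) * dist y z := by gcongr
          _ = dist y z * (C₁ * Real.exp (κ * n)) := by ring
    rw [div_le_iff₀ h0] at h1
    linarith
  · -- the gap
    intro y hy z hz hd
    by_contra hcon
    push Not at hcon
    have := hgap y (hTH y hy) z hz hcon
    linarith
  · intro p hp q hq hpB hqB
    exact conn_card (hull_conn S hCρ n g) hlam0.le hTc (sub_hull S (by linarith) hp hpB)
      (sub_hull S (by linarith) hq hqB)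

end Pool.Agent.Lib.MP610fe3.AC.U1
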