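import Pool.Agent.Lib.MP_610fe3_an.AC.U1.EyGen1
import Pool.Agent.Lib.MP_610fe3_an.AC.U1.NET
import Pool.Agent.Lib.MP_610fe3_an.AC.U1.LOC1
import Pool.Agent.Lib.MP_610fe3_an.U1.EyP

/-!
# The exponent `2 (u - 1)`: the general form of the key estimate, in the form of U1/Spec.lean
-/

open Set Filter Function Metric
open scoped Topology

namespace Pool.Agent.Lib.MP610fe3.AC.U1

open Cf H6 T4 T6

universe v

/-- The general form with the exponent `2 (u - 1)`. -/
theorem specEyGenP1_of (hG : SpecEyGen1.{v}) :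
    MP610fe3.U1.SpecEyGenP.{v} (fun u => 2 * ((u - 1 : ℕ) : ℝ)) := by
  intro M _ _ f u φ C a b κ₀ r r₁ e ρ η ρ₁ κ X l₀ S hc h1 h2 hκ hcells hinv hsat
  have hC := S.C1
  have he := S.e_pos
  have her := S.e_le_r
  have hη := hc.η_pos
  obtain ⟨C₁, hC₁, h⟩ := hG f u φ C a b κ₀ r r₁ e ρ η ρ₁ κ X l₀ S hc
    (MP610fe3.U1.small hC hη.le h1) (MP610fe3.U1.small hC hη.le h2) hκ hcells
    (fun x hx y hy => hsat x hx y (Wl_mono (by linarith) hy)) (fun x hx => (hinv x).2 hx)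
  refine ⟨C₁, hC₁, fun q i m N w hw hq hinr hi hdom s hs t ht z z' hz hz' => ?_⟩
  exact Wl_mono (MP610fe3.U1.bound_le hC₁)
    (h q i m N w hw hq hinr hi hdom s hs t ht z z' hz hz')

/-- The general form with the exponent `2 (u - 1)`, from the first half. -/
theorem specEyGenP1_ofA (hA : SpecEyA1.{v}) :
    MP610fe3.U1.SpecEyGenP.{v} (fun u => 2 * ((u - 1 : ℕ) : ℝ)) :=
  specEyGenP1_of (specEyGen1_of hA (specEyB1 specNet) specCover)

end Pool.Agent.Lib.MP610fe3.AC.U1
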