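import Pool.Agent.Lib.MP_610fe3_an.AC.EyonDefs

/-!
# Exponent `2 (u - 1)` in EYON: the interface of the halves

As AC/EyonDefs.lean (same structure `Img`), for a set `P` which is forward invariant and saturated by
the unstable sets of size `e`.

EYA1: scales `δ = C η`, nets of the Bowen balls of size `4 C η`, `lam₀ = η`, `l i = C lam i`,
`θ = 1 / (4 C²)`; near cells: `Y (c i) ∈ Wl f.symm (12 C⁴ η) p`; the counted ones are in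
`Wl f.symm (16 C⁴ η) p`.
-/

open Set Filter Function Metric
open scoped Topology

namespace Pool.Agent.Lib.MP610fe3.AC.U1

open Cf H6 T4 T6

universe v

/-- First half: the number of pieces, by LOC1, CUTM, NET, OVL. -/
def SpecEyA1 : Prop :=
  ∀ {M : Type v} [MetricSpace M] (f : M ≃ₜ M) (u : ℕ)
    (φ : M → EuclideanSpace ℝ (Fin u) → M) (C a b κ₀ r r₁ e ρ η κ : ℝ) (P : Set M),
    Sys f u φ C a b κ₀ r r₁ e ρ → 0 < η → 1000 * C ^ 5 * η ≤ e →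
    1000 * C ^ 5 * η ≤ ρ → 0 ≤ κ → CellsP f P r e κ →
    (∀ x ∈ P, ∀ y ∈ Wl f.symm e x, y ∈ P) → ∃ V : ℝ, 0 < V ∧
    ∀ {n : ℕ} (n' : ℕ) (Y : EuclideanSpace ℝ (Fin u) → M)
      (Cl : Fin n → Set (EuclideanSpace ℝ (Fin u))) (c : Fin n → EuclideanSpace ℝ (Fin u))
      (D : Fin n → ℝ), Img f P C r e η n' Y Cl c D →
      ∀ G : Finset M, (∀ p ∈ G, ∃ s ∈ closedBall (0 : EuclideanSpace ℝ (Fin u)) (1 / 2), Y s = p) →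
        (∀ p ∈ G, ∀ p' ∈ G, p ≠ p' → p' ∉ Wl f.symm (32 * C ^ 4 * η) p) →
        (G.card : ℝ) ≤ V * ((n' + 1) * Real.exp (κ * n')) ^ (u - 1) * ∑ i, D i ^ u

/-- Second half: `Img` exists in the main case, with a better bound of `∑ D i ^ u`, by HOL, TR,
NET, OVL. -/
def SpecEyB1 : Prop :=
  ∀ {M : Type v} [MetricSpace M] [CompactSpace M] (f : M ≃ₜ M) (u : ℕ)
    (φ : M → EuclideanSpace ℝ (Fin u) → M) (C a b κ₀ r r₁ e ρ η ρ₁ κ : ℝ) (P : Set M),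
    Sys f u φ C a b κ₀ r r₁ e ρ → Sc C e ρ η ρ₁ → 1000 * C ^ 5 * η ≤ e →
    1000 * C ^ 5 * η ≤ ρ → 0 ≤ κ → CellsP f P r e κ →
    (∀ x ∈ P, ∀ y ∈ Wl f.symm e x, y ∈ P) → ∃ C₁ : ℝ, 0 < C₁ ∧
    ∀ (l₀ : ℕ) (q : ℕ → M) (i m N : ℕ) (w : M), l₀ ≤ m → m ≤ N →
      (∀ s ∈ closedBall (0 : EuclideanSpace ℝ (Fin u)) ρ₁, φ w s ∈ P) →
      (∀ v ∈ Wl f.symm e (q i), ∀ j : ℕ, f^[j] v ∈ P) →
      (∀ x ∈ P, ∃ z ∈ Wl f.symm η x, ∀ s ∈ closedBall (0 : EuclideanSpace ℝ (Fin u)) ρ₁,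
        ¬ Lad f e q i (f.symm^[m] (φ w s)) (f.symm^[m - l₀] z)) →
      i * (C * Real.exp (-(b * N)) * (2 * e)) ≤ η / (4 * C) → Dom f φ e ρ₁ q i m w →
      ∃ (n : ℕ) (X Y : EuclideanSpace ℝ (Fin u) → M)
        (Cl : Fin n → Set (EuclideanSpace ℝ (Fin u))) (c : Fin n → EuclideanSpace ℝ (Fin u))
        (D : Fin n → ℝ), Img f P C r e η (N - m + l₀) Y Cl c D ∧
        ∑ i, D i ^ u ≤ C₁ * Real.exp ((u - 1 : ℕ) * κ * (N - m : ℕ)) ∧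
        (∀ s, Y s = f^[m - l₀] (X s)) ∧
        ∀ s ∈ closedBall (0 : EuclideanSpace ℝ (Fin u)) 1,
          Lad f e q i (f.symm^[m] (φ w (ρ₁ • s))) (X s)

/-- EYGEN with the exponent `2 (u - 1)`. -/
def SpecEyGen1 : Prop :=
  ∀ {M : Type v} [MetricSpace M] [CompactSpace M] (f : M ≃ₜ M) (u : ℕ)
    (φ : M → EuclideanSpace ℝ (Fin u) → M) (C a b κ₀ r r₁ e ρ η ρ₁ κ : ℝ) (P : Set M) (l₀ : ℕ),
    Sys f u φ C a b κ₀ r r₁ e ρ → Sc C e ρ η ρ₁ → 1000 * C ^ 5 * η ≤ e →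
    1000 * C ^ 5 * η ≤ ρ → 0 ≤ κ → CellsP f P r e κ →
    (∀ x ∈ P, ∀ y ∈ Wl f.symm e x, y ∈ P) → (∀ x ∈ P, f x ∈ P) → ∃ C₁ : ℝ, 0 < C₁ ∧
    ∀ (q : ℕ → M) (i m N : ℕ), ∀ w ∈ P, q i ∈ P →
      (l₀ ≤ m → m ≤ N → ∀ x ∈ P, ∃ z ∈ Wl f.symm η x,
        ∀ s ∈ closedBall (0 : EuclideanSpace ℝ (Fin u)) ρ₁,
          ¬ Lad f e q i (f.symm^[m] (φ w s)) (f.symm^[m - l₀] z)) →
      i * (C * Real.exp (-(b * N)) * (2 * e)) ≤ η / (4 * C) → Dom f φ e ρ₁ q i m w →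
      ∀ s ∈ closedBall (0 : EuclideanSpace ℝ (Fin u)) (ρ₁ / 2), ∀ t ∈ closedBall 0 (ρ₁ / 2),
      ∀ z z', Lad f e q i (f.symm^[m] (φ w s)) z → Lad f e q i (f.symm^[m] (φ w t)) z' →
        z' ∈ Wl f.symm (C₁ * (N + 1) ^ (u - 1) *
          Real.exp (2 * (u - 1 : ℕ) * κ * (N - m : ℕ) - a * m)) z

end Pool.Agent.Lib.MP610fe3.AC.U1
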