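import Pool.Agent.Lib.MP_610fe3_an.AC.EyonDefs

/-!
# Exponent `2 (u - 1)` in EYON: LOC with nets, and the nets of Bowen balls

A Bowen ball with center `g` in `P`, at the time `n`, has a net `T` of radius `lam`: its diameter is at
most `K lam`, `K = C exp (κ n)`, and (it is contained in a connected set, covered by the balls of the
net) at most `2 lam card T`; the balls of the nets of separated centers have a bounded overlap.

Source: `D^u ≤ D (K lam)^(u-1) ≤ 2 K^(u-1) card T lam^u`, so `∑ D_i^u ≤ C K^(u-1)`.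
Target: the probability `p_i` that the segment from `0` to a random point meets the `lam`-neighbourhood
of `T_i` is at most `C ∑ (lam / |y|)^(u-1)`, `y ∈ T_i`, and at most `C (K lam / |y|)^(u-1)` for every
`y ∈ T_i`. So `D p ≤ t^(u-1) D^u + C (K / t) ∑ (lam / |y|)^u` for every `t > 0` (cases `p ≤ (t D)^(u-1)`
and `>`), and the sum over all pairs `(i, y)` of `(lam / |y|)^u` is at most `C Ω (L + 1)` (dyadic shells,
volume). The number of the pieces is at most `C (L + 1)^(u-1) K^(2 (u-1))`.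
-/

open Set Filter Function Metric
open scoped Topology

namespace Pool.Agent.Lib.MP610fe3.AC.U1

open Cf H6 T4 T6

universe v

open scoped Classical in
/-- Module LOC1 (compare SpecLoc): the small balls are replaced by nets `T i` of radius `l i` and
diameter at most `K l i`; the balls of radius `θ l i` around the points of all the nets have the
overlap `Ω`. -/
def SpecLoc1 : Prop :=
  ∀ (u : ℕ) (θ : ℝ), 1 ≤ u → 0 < θ → ∃ C : ℝ, 0 < C ∧ ∀ {ι : Type} [Fintype ι]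
    (T : ι → Finset (EuclideanSpace ℝ (Fin u))) (D l : ι → ℝ) (e₂ : EuclideanSpace ℝ (Fin u))
    (K δ Ω : ℝ) (L : ℕ), 1 ≤ K → 0 < δ → 1 ≤ Ω → (∀ i, 0 ≤ D i) →
    (∀ i, 0 < l i ∧ l i ≤ δ ∧ δ ≤ 2 ^ L * l i) →
    (∀ i, ∀ y ∈ T i, ∀ y' ∈ T i, dist y y' ≤ K * l i) →
    (∀ x, ((((Finset.univ : Finset ι).sigma T).filter
      (fun α => dist α.2 x ≤ θ * l α.1)).card : ℝ) ≤ Ω) → e₂ ∈ closedBall 0 δ →
    (∀ z ∈ closedBall (0 : EuclideanSpace ℝ (Fin u)) δ, 1 / 2 ≤ ∑ i,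
      if (∃ x ∈ segment ℝ 0 z ∪ segment ℝ z e₂, ∃ y ∈ T i, dist x y ≤ l i) then D i else 0) →
    1 ≤ C * (Ω * K * (L + 1)) ^ (u - 1) *
      ∑ i, if (∃ y ∈ T i, dist y 0 ≤ 2 * δ) then D i ^ u else 0

/-- Module NET. Proof: `H = f^-n (φ (f^n g) '' closedBall 0 (C η))` is compact and connected, contains
the Bowen ball of radius `η` and is contained in the one of radius `C³ η`;
`lam = sInf (insert lam₀ {dist y z | y ∈ H, z ∈ Wl f.symm e g, z not in the Bowen ball of radius R})`,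
`R = 2 C³ η`; `T` is a maximal `lam`-separated subset of `H`. `dia` is `CellsP` with the center `y`;
`card`: the image of `H` under `dist (·) p` is an interval covered by `card T` intervals. -/
def SpecNet : Prop :=
  ∀ {M : Type v} [MetricSpace M] (f : M ≃ₜ M) (u : ℕ)
    (φ : M → EuclideanSpace ℝ (Fin u) → M) (C a b κ₀ r r₁ e ρ η lam₀ κ : ℝ) (P : Set M),
    Sys f u φ C a b κ₀ r r₁ e ρ → 0 < η → 0 < lam₀ → 16 * C ^ 3 * η ≤ e → 16 * C ^ 3 * η ≤ ρ →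
    0 ≤ κ → CellsP f P r e κ → (∀ x ∈ P, ∀ y ∈ Wl f.symm e x, y ∈ P) → ∃ C₁ : ℝ, 1 ≤ C₁ ∧
    ∀ (n : ℕ), ∀ g ∈ P, ∃ (lam : ℝ) (T : Finset M), 0 < lam ∧ lam ≤ lam₀ ∧
      1 ≤ C₁ * C ^ n * lam ∧
      (∀ y ∈ T, y ∈ Wl f.symm (C ^ 3 * η) g ∧ ∀ k ≤ n, dist (f^[k] y) (f^[k] g) ≤ C ^ 3 * η) ∧
      (∀ p ∈ Wl f.symm e g, (∀ k ≤ n, dist (f^[k] p) (f^[k] g) ≤ η) → ∃ y ∈ T, dist p y ≤ lam) ∧
      (∀ y ∈ T, ∀ y' ∈ T, y ≠ y' → lam < dist y y') ∧
      (∀ p ∈ Wl f.symm e g, ∀ q ∈ Wl f.symm e g,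
        (∀ k ≤ n, dist (f^[k] p) (f^[k] g) ≤ 2 * C ^ 3 * η) →
        (∀ k ≤ n, dist (f^[k] q) (f^[k] g) ≤ 2 * C ^ 3 * η) →
        dist p q ≤ C₁ * Real.exp (κ * n) * lam) ∧
      (∀ y ∈ T, ∀ z ∈ Wl f.symm e g, dist y z < lam →
        ∀ k ≤ n, dist (f^[k] z) (f^[k] g) ≤ 2 * C ^ 3 * η) ∧
      (∀ p ∈ Wl f.symm e g, ∀ q ∈ Wl f.symm e g, (∀ k ≤ n, dist (f^[k] p) (f^[k] g) ≤ η) →
        (∀ k ≤ n, dist (f^[k] q) (f^[k] g) ≤ η) → dist p q ≤ 2 * lam * T.card)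

end Pool.Agent.Lib.MP610fe3.AC.U1
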