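import Pool.Agent.Lib.MP_610fe3_an.AC.EyonB
import Pool.Agent.Lib.MP_610fe3_an.AC.U1.Spec1
import Pool.Agent.Lib.MP_610fe3_an.AC.U1.SpecLoc1
import Pool.Agent.Lib.MP_610fe3_an.AC.U1.OVL

/-!
# Second half of EYON with the exponent `2 (u - 1)`

As AC/EyonB.lean, with a better bound of `∑ D i ^ u` (nets of the Bowen balls of the source).
-/

open Set Filter Function Metric
open scoped Topology

namespace Pool.Agent.Lib.MP610fe3.AC.U1

open Cf H6 T4 T6

universe v

namespace EyB1M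

/-- From the two bounds of the diameter to the bound of the `u`-th power. -/
theorem pow_bound {D x y : ℝ} {u : ℕ} (hu : 1 ≤ u) (hD : 0 ≤ D) (h1 : D ≤ x) (h2 : D ≤ y) :
    D ^ u ≤ x * y ^ (u - 1) := by
  obtain ⟨n, rfl⟩ : ∃ n, u = n + 1 := ⟨u - 1, by omega⟩
  rw [Nat.add_sub_cancel, pow_succ, mul_comm]
  have hx : 0 ≤ x := hD.trans h1
  have hy : 0 ≤ y := hD.trans h2
  gcongr

end EyB1M

open EyM EyBM EyB1M in
/-- The image of a disc and the cells. -/
theorem specEyB1 (hNet : SpecNet.{v}) : SpecEyB1.{v} := by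
  classical
  intro M _ _ f u φ C a b κ₀ r r₁ e ρ η ρ₁ κ PP S hc hηe5 hηρ5 hκ hQ hsat
  have hC := S.C1
  have hC0 : 0 < C := by linarith
  have hη := hc.η_pos
  have hηe := hc.η_le
  have he := S.e_pos
  have her := S.e_le_r
  have hρ := S.ρ_pos
  have hρ₁ := hc.ρ₁_pos
  have hρ₁' := hc.ρ₁_le'
  have hηe' : η ≤ e := by nlinarith
  have hC35 : C ^ 3 * η ≤ C ^ 5 * η := by
    have : C ^ 3 ≤ C ^ 5 := pow_le_pow_right₀ hC (by norm_num)
    gcongr
  have hC45 : C ^ 4 * η ≤ C ^ 5 * η := by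
    have : C ^ 4 ≤ C ^ 5 := pow_le_pow_right₀ hC (by norm_num)
    gcongr
  have hC15 : C * η ≤ C ^ 5 * η := by
    have : C ^ 1 ≤ C ^ 5 := pow_le_pow_right₀ hC (by norm_num)
    rw [pow_one] at this
    gcongr
  have hC05 : η ≤ C ^ 5 * η := by
    have : (1 : ℝ) ≤ C ^ 5 := one_le_pow₀ hC
    nlinarith
  have hC50 : 0 < C ^ 5 * η := by positivity
  obtain ⟨CN, hCN, hnet⟩ := hNet f u φ C a b κ₀ r r₁ e ρ η η κ PP S hη hη (by linarith)
    (by linarith) hκ hQ hsat
  obtain ⟨Ω, hΩ, hovl⟩ := ovl_nets S (R := 2 * C ^ 3 * η) (η₂ := η) (θ := η) (lam₀ := η)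
    (by positivity) hη (by nlinarith) hη hη (by linarith) (by linarith)
  have hCN0 : 0 < CN := by linarith
  have hΩ0 : 0 < Ω := by linarith
  refine ⟨2 * (C / ρ₁) ^ u * CN ^ (u - 1) * ((4 * C) ^ u * (Ω * (3 * C ^ 4 * η) ^ u)),
    by positivity, ?_⟩
  intro l₀ q i m N w hlm hmN hwP hqP hinr hi hdom
  obtain ⟨h, hh⟩ := specHol f u φ C a b κ₀ r r₁ e ρ η ρ₁ S hc q i m w hdom
  have hi' : i * (C * Real.exp (-(b * N)) * (2 * e)) ≤ η := by
    refine hi.trans ?_
    rw [div_le_iff₀ (by positivity)]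
    nlinarith
  set m' : ℕ := m - l₀ with hm'
  have hm'N : m' + (N - m + l₀) = N := by omega
  -- the points of the disc
  have hsc : ∀ x ∈ closedBall (0 : EuclideanSpace ℝ (Fin u)) 1,
      ρ₁ • x ∈ closedBall (0 : EuclideanSpace ℝ (Fin u)) ρ₁ := by
    intro x hx
    rw [mem_closedBall_zero_iff] at hx ⊢
    rw [norm_smul, Real.norm_of_nonneg hρ₁.le]
    exact mul_le_of_le_one_right hρ₁.le hx
  have hscρ : ∀ x ∈ closedBall (0 : EuclideanSpace ℝ (Fin u)) 1,
      ρ₁ • x ∈ closedBall (0 : EuclideanSpace ℝ (Fin u)) ρ := fun x hx =>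
    closedBall_subset_closedBall (by linarith) (hsc x hx)
  set P : EuclideanSpace ℝ (Fin u) → M := fun x => φ w (ρ₁ • x) with hP
  set X : EuclideanSpace ℝ (Fin u) → M := fun x => φ (q i) (h x) with hX
  set Y : EuclideanSpace ℝ (Fin u) → M := fun x => f^[m'] (X x) with hY
  have hPη : ∀ x ∈ closedBall (0 : EuclideanSpace ℝ (Fin u)) 1, P x ∈ Wl f.symm η w :=
    fun x hx => hc.disc S w (hsc x hx)
  have hlad : ∀ x ∈ closedBall (0 : EuclideanSpace ℝ (Fin u)) 1,
      Lad f e q i (f.symm^[m] (P x)) (X x) := hh.lad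
  have hXe : ∀ x ∈ closedBall (0 : EuclideanSpace ℝ (Fin u)) 1, X x ∈ Wl f.symm e (q i) :=
    fun x hx => (hlad x hx).last
  have hXX : ∀ x ∈ closedBall (0 : EuclideanSpace ℝ (Fin u)) 1,
      ∀ y ∈ closedBall (0 : EuclideanSpace ℝ (Fin u)) 1, X x ∈ Wl f.symm (2 * e) (X y) := by
    intro x hx y hy
    have := Wl_trans (Wl_comm (hXe y hy)) (hXe x hx)
    rwa [← two_mul] at this
  have hhρ : ∀ x ∈ closedBall (0 : EuclideanSpace ℝ (Fin u)) 1,
      h x ∈ closedBall (0 : EuclideanSpace ℝ (Fin u)) ρ := fun x hx =>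
    closedBall_subset_closedBall (by linarith) (hh.mem x hx)
  have hPlow : ∀ x ∈ closedBall (0 : EuclideanSpace ℝ (Fin u)) 1,
      ∀ y ∈ closedBall (0 : EuclideanSpace ℝ (Fin u)) 1, ρ₁ * dist x y ≤ C * dist (P x) (P y) := by
    intro x hx y hy
    have := S.lower w _ (hscρ x hx) _ (hscρ y hy)
    rwa [dist_smul₀, Real.norm_of_nonneg hρ₁.le] at this
  have hPup : ∀ x ∈ closedBall (0 : EuclideanSpace ℝ (Fin u)) 1,
      ∀ y ∈ closedBall (0 : EuclideanSpace ℝ (Fin u)) 1, dist (P x) (P y) ≤ C * (ρ₁ * dist x y) := by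
    intro x hx y hy
    have := S.upper w _ (hscρ x hx) _ (hscρ y hy)
    rwa [dist_smul₀, Real.norm_of_nonneg hρ₁.le] at this
  have hcl : ∀ x ∈ closedBall (0 : EuclideanSpace ℝ (Fin u)) 1,
      ∀ y ∈ closedBall (0 : EuclideanSpace ℝ (Fin u)) 1,
      (∀ k ≤ N - m, dist (f^[k] (P x)) (f^[k] (P y)) ≤ 2 * η) →
      ∀ k ≤ N, dist (f^[k] (X x)) (f^[k] (X y)) ≤ 4 * C * η :=
    fun x hx y hy => img_close S hc hmN hi' (hPη x hx) (hPη y hy) (hlad x hx) (hlad y hy)
  have hse : ∀ x ∈ closedBall (0 : EuclideanSpace ℝ (Fin u)) 1,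
      ∀ y ∈ closedBall (0 : EuclideanSpace ℝ (Fin u)) 1,
      (∃ k ≤ N - m, η < dist (f^[k] (P x)) (f^[k] (P y))) →
      ∃ k ≤ N, η / (4 * C) < dist (f^[k] (X x)) (f^[k] (X y)) :=
    fun x hx y hy => img_sep S hc hmN hi (hlad x hx) (hlad y hy)
  -- the cells
  obtain ⟨F, hF1, hF2, hF3⟩ := InrM.exists_max S (P '' closedBall 0 1) (N - m) hη
  have hc_ex : ∀ j : Fin F.card, ∃ x ∈ closedBall (0 : EuclideanSpace ℝ (Fin u)) 1,
      P x = (F.equivFin.symm j : M) := fun j => hF1 _ (F.equivFin.symm j).2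
  choose c hcb hcP using hc_ex
  have hcF : ∀ j, P (c j) ∈ F := fun j => by rw [hcP]; exact (F.equivFin.symm j).2
  have hcne : ∀ j k, j ≠ k → P (c j) ≠ P (c k) := by
    intro j k hjk heq
    rw [hcP, hcP] at heq
    exact hjk (F.equivFin.symm.injective (Subtype.ext heq))
  set Cl : Fin F.card → Set (EuclideanSpace ℝ (Fin u)) := fun j =>
    {x | x ∈ closedBall 0 1 ∧ ∀ k ≤ N - m, dist (f^[k] (P x)) (f^[k] (P (c j))) ≤ η} with hCl
  have hcCl : ∀ j, c j ∈ Cl j := fun j => ⟨hcb j, fun k _ => by rw [dist_self]; exact hη.le⟩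
  have hclj : ∀ j, ∀ x ∈ Cl j, ∀ y ∈ Cl j, ∀ k ≤ N,
      dist (f^[k] (X x)) (f^[k] (X y)) ≤ 4 * C * η := by
    intro j x hx y hy
    refine hcl x hx.1 y hy.1 fun k hk => ?_
    have h1 := hx.2 k hk
    have h2 := hy.2 k hk
    rw [dist_comm] at h2
    linarith [dist_triangle (f^[k] (P x)) (f^[k] (P (c j))) (f^[k] (P y))]
  have hsep : ∀ j k, j ≠ k → ∃ n ≤ N - m, η < dist (f^[n] (P (c j))) (f^[n] (P (c k))) :=
    fun j k hjk => hF2 _ (hcF j) _ (hcF k) (hcne j k hjk)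
  -- the nets
  have hPc : ∀ j, ∀ x ∈ Cl j, P x ∈ Wl f.symm e (P (c j)) := fun j x hx =>
    Wl_mono (by linarith) (Wl_trans (Wl_comm (hPη _ (hcb j))) (hPη x hx.1))
  have hn := fun j => hnet (N - m) (P (c j)) (hwP _ (hsc _ (hcb j)))
  choose lam T hl0 hl1 _hl2 hTW hTb hTsep hTd hTe hTf using hn
  -- their coordinates
  have hco : ∀ y : M, ∃ x : EuclideanSpace ℝ (Fin u), y ∈ Wl f.symm (4 * e) w →
      x ∈ closedBall 0 (ρ / 2) ∧ ‖x‖ ≤ C * dist y w ∧ φ w x = y := by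
    intro y
    by_cases h : y ∈ Wl f.symm (4 * e) w
    · obtain ⟨x, h1, h2, h3⟩ := S.onto_small h
      exact ⟨x, fun _ => ⟨h1, h2, h3⟩⟩
    · exact ⟨0, fun h' => absurd h' h⟩
  choose co hco using hco
  have hTw : ∀ j, ∀ y ∈ T j, y ∈ Wl f.symm (η + C ^ 3 * η) w := fun j y hy =>
    Wl_trans (hPη _ (hcb j)) (hTW j y hy).1
  have hTw4 : ∀ j, ∀ y ∈ T j, y ∈ Wl f.symm (4 * e) w := fun j y hy =>
    Wl_mono (by linarith) (hTw j y hy)
  set T' : Fin F.card → Finset (EuclideanSpace ℝ (Fin u)) := fun j => (T j).image co with hT'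
  have hT'1 : ∀ j, ∀ y ∈ T' j, y ∈ closedBall (0 : EuclideanSpace ℝ (Fin u)) (ρ / 2) ∧
      ‖y‖ ≤ C * (η + C ^ 3 * η) ∧ φ w y ∈ T j := by
    intro j y hy
    obtain ⟨y₀, hy₀, rfl⟩ := Finset.mem_image.1 hy
    obtain ⟨h1, h2, h3⟩ := hco y₀ (hTw4 j y₀ hy₀)
    refine ⟨h1, h2.trans ?_, by rw [h3]; exact hy₀⟩
    have := Wl_dist (hTw j y₀ hy₀)
    gcongr
  have hcard : ∀ j, (T' j).card = (T j).card := by
    intro j
    refine Finset.card_image_of_injOn fun y hy y' hy' h => ?_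
    have h1 := (hco y (hTw4 j y (Finset.mem_coe.1 hy))).2.2
    have h2 := (hco y' (hTw4 j y' (Finset.mem_coe.1 hy'))).2.2
    rw [← h1, ← h2, h]
  have hpack : ∑ j, ((T j).card : ℝ) * lam j ^ u ≤ (4 * C) ^ u * (Ω * (3 * C ^ 4 * η) ^ u) := by
    have h1 := pack_ovl S.u_pos ((Finset.univ : Finset (Fin F.card)).sigma T')
      (fun α => α.2) (fun α => lam α.1 / (4 * C)) Ω (3 * C ^ 4 * η) hΩ0.le (by positivity)
      (fun α _ => div_nonneg (hl0 α.1).le (by positivity)) (fun α hα => ?_) (fun x t ht hx => ?_)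
    · rw [Finset.sum_sigma] at h1
      simp only [Finset.sum_const, nsmul_eq_mul, hcard, div_pow] at h1
      have h2 : ∑ j, ((T j).card : ℝ) * lam j ^ u =
          (4 * C) ^ u * ∑ j, ((T j).card : ℝ) * (lam j ^ u / (4 * C) ^ u) := by
        rw [Finset.mul_sum]
        refine Finset.sum_congr rfl fun j _ => ?_
        field_simp
      rw [h2]
      gcongr
    · obtain ⟨-, h3⟩ := Finset.mem_sigma.1 hα
      obtain ⟨-, h4, -⟩ := hT'1 α.1 α.2 h3
      have h5 : lam α.1 / (4 * C) ≤ η := by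
        rw [div_le_iff₀ (by positivity)]
        have := hl1 α.1
        nlinarith
      have h6 : C * (η + C ^ 3 * η) = C * η + C ^ 4 * η := by ring
      have h7 : C * η ≤ C ^ 4 * η := by
        have : C ^ 1 ≤ C ^ 4 := pow_le_pow_right₀ hC (by norm_num)
        rw [pow_one] at this
        gcongr
      have h8 : η ≤ C ^ 4 * η := by
        have : (1 : ℝ) ≤ C ^ 4 := one_le_pow₀ hC
        nlinarith
      simp only [dist_zero_right]
      linarith
    · exact hovl (N - m) w Finset.univ (fun j => P (c j)) lam T T' (fun j _ => ⟨hl0 j, hl1 j⟩)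
        (fun j _ y hy => (hTW j y hy).1) (fun j _ => hTsep j) (fun j _ => hTe j)
        (fun j _ k _ hjk _ => hsep j k hjk) (fun j _ y hy => ⟨(hT'1 j y hy).1, (hT'1 j y hy).2.2⟩)
        (by linarith) x t ht hx
  -- the sizes of the source cells
  have hsrc : ∀ j, diam (Cl j) ^ u ≤ 2 * (C / ρ₁) ^ u * CN ^ (u - 1) *
      Real.exp ((u - 1 : ℕ) * κ * (N - m : ℕ)) * (((T j).card : ℝ) * lam j ^ u) := by
    intro j
    have hl := hl0 j
    have h1 : ∀ x ∈ Cl j, ∀ y ∈ Cl j, dist x y ≤ C / ρ₁ * dist (P x) (P y) := by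
      intro x hx y hy
      have h2 := hPlow x hx.1 y hy.1
      rw [div_mul_eq_mul_div, le_div_iff₀ hρ₁]
      linarith
    have h2 : diam (Cl j) ≤ C / ρ₁ * (2 * lam j * (T j).card) := by
      refine diam_le_of_forall_dist_le (by positivity) fun x hx y hy => ?_
      refine (h1 x hx y hy).trans ?_
      have := hTf j (P x) (hPc j x hx) (P y) (hPc j y hy) hx.2 hy.2
      gcongr
    have h3 : diam (Cl j) ≤ C / ρ₁ * (CN * Real.exp (κ * (N - m : ℕ)) * lam j) := by
      refine diam_le_of_forall_dist_le (by positivity) fun x hx y hy => ?_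
      refine (h1 x hx y hy).trans ?_
      have h4 : η ≤ 2 * C ^ 3 * η := by
        have : (1 : ℝ) ≤ C ^ 3 := one_le_pow₀ hC
        nlinarith
      have := hTd j (P x) (hPc j x hx) (P y) (hPc j y hy) (fun k hk => (hx.2 k hk).trans h4)
        (fun k hk => (hy.2 k hk).trans h4)
      gcongr
    refine (pow_bound S.u_pos diam_nonneg h2 h3).trans (le_of_eq ?_)
    obtain ⟨k, hk⟩ : ∃ k, u = k + 1 := ⟨u - 1, by have := S.u_pos; omega⟩
    have h4 : u - 1 = k := by omega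
    rw [h4, hk, mul_pow, mul_pow, mul_pow, ← Real.exp_nat_mul, pow_succ (C / ρ₁), pow_succ (lam j)]
    ring_nf
  have hbdd : ∀ j, Bornology.IsBounded (Cl j) := fun j =>
    isBounded_closedBall.subset fun x hx => hx.1
  have hYY : ∀ j, ∀ x ∈ Cl j, ∀ y ∈ Cl j, Y x ∈ Wl f.symm (4 * C ^ 2 * η) (Y y) :=
    fun j x hx y hy => img_wl S (by linarith) (by omega) (hXX x hx.1 y hy.1) (hclj j x hx y hy)
  refine ⟨F.card, X, Y, Cl, c, fun j => diam (Cl j), ?_, ?_, fun s => rfl, hlad⟩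
  · refine ⟨?_, ?_, fun s hs => hqP _ (hXe s hs) m', ?_, hcCl, fun j x hx => hx.1, ?_,
      fun j x hx y hy => dist_le_diam_of_mem (hbdd j) hx hy, fun j => diam_nonneg, hYY, ?_, ?_⟩
    · -- continuity
      have h1 : LipschitzOnWith (Real.toNNReal C) (φ (q i)) (closedBall 0 ρ) := by
        refine LipschitzOnWith.of_dist_le_mul fun x hx y hy => ?_
        rw [Real.coe_toNNReal C hC0.le]
        exact S.upper (q i) x hx y hy
      have h2 : ContinuousOn X (closedBall 0 1) := h1.continuousOn.comp hh.cont hhρ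
      exact (f.continuous.iterate m').comp_continuousOn h2
    · -- openness
      intro t ht s hs
      have hs1 : s ∈ closedBall (0 : EuclideanSpace ℝ (Fin u)) 1 :=
        closedBall_subset_closedBall ht.2.le (ball_subset_closedBall hs)
      obtain ⟨ε₁, hε₁, hb⟩ := Metric.isOpen_iff.1 (hh.opn t ht) (h s) (mem_image_of_mem h hs)
      refine ⟨ε₁ / C ^ 2, by positivity, fun x hx hd => ?_⟩
      have h1 : f.symm^[m'] x ∈ Wl f.symm e (X s) := by
        have := Wl_iter hx m'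
        rwa [hY, TrM.sii] at this
      have h2 : f.symm^[m'] x ∈ Wl f.symm (4 * e) (q i) :=
        Wl_mono (by linarith) (Wl_trans (hXe s hs1) h1)
      obtain ⟨y, hy, hyx⟩ := S.onto _ _ h2
      have hyρ : y ∈ closedBall (0 : EuclideanSpace ℝ (Fin u)) ρ :=
        closedBall_subset_closedBall (by linarith) hy
      have h3 : dist (f.symm^[m'] x) (X s) ≤ C * dist x (Y s) := by
        have := S.dec_un' (Wl_mono (by linarith : e ≤ r) hx) m'
        rwa [hY, TrM.sii] at this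
      have h4 : dist y (h s) < ε₁ := by
        calc dist y (h s) ≤ C * dist (φ (q i) y) (φ (q i) (h s)) :=
              S.lower (q i) y hyρ (h s) (hhρ s hs1)
          _ = C * dist (f.symm^[m'] x) (X s) := by rw [hyx]
          _ ≤ C * (C * dist x (Y s)) := by gcongr
          _ < C * (C * (ε₁ / C ^ 2)) := by gcongr
          _ = ε₁ := by field_simp
      obtain ⟨s', hs', hs''⟩ := hb (mem_ball.2 h4)
      refine ⟨s', hs', ?_⟩
      show f^[m'] (φ (q i) (h s')) = x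
      rw [hs'', hyx, TrM.iis]
    · -- the image contains no unstable set of size `η`
      intro x hx
      obtain ⟨z, hz, hz'⟩ := hinr x hx
      refine ⟨z, hz, fun s hs heq => hz' _ (hsc s hs) ?_⟩
      have h1 := hlad s hs
      rwa [← heq, hY, TrM.sii]
    · -- covering
      intro x hx
      obtain ⟨g, hg, hg'⟩ := hF3 (P x) ⟨x, hx, rfl⟩
      refine mem_iUnion.2 ⟨F.equivFin ⟨g, hg⟩, hx, fun k hk => ?_⟩
      rw [hcP, Equiv.symm_apply_apply]
      exact hg' k hk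
    · -- Bowen balls
      intro j x hx y hy k hk
      show dist (f^[k] (f^[m'] (X x))) (f^[k] (f^[m'] (X y))) ≤ _
      rw [← iterate_add_apply, ← iterate_add_apply]
      exact hclj j x hx y hy _ (by omega)
    · -- separation
      intro j k hjk hW
      exact sep_img S hη hm'N hW (hse _ (hcb j) _ (hcb k) (hsep j k hjk))
  · calc ∑ j, diam (Cl j) ^ u
        ≤ ∑ j, 2 * (C / ρ₁) ^ u * CN ^ (u - 1) *
          Real.exp ((u - 1 : ℕ) * κ * (N - m : ℕ)) * (((T j).card : ℝ) * lam j ^ u) :=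
          Finset.sum_le_sum fun j _ => hsrc j
      _ = 2 * (C / ρ₁) ^ u * CN ^ (u - 1) *
          Real.exp ((u - 1 : ℕ) * κ * (N - m : ℕ)) * ∑ j, ((T j).card : ℝ) * lam j ^ u := by
          rw [Finset.mul_sum]
      _ ≤ 2 * (C / ρ₁) ^ u * CN ^ (u - 1) *
          Real.exp ((u - 1 : ℕ) * κ * (N - m : ℕ)) *
            ((4 * C) ^ u * (Ω * (3 * C ^ 4 * η) ^ u)) := by
          gcongr
      _ = _ := by ring

end Pool.Agent.Lib.MP610fe3.AC.U1
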