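import Pool.Agent.Lib.MP_610fe3_an.AC.EYON
import Pool.Agent.Lib.MP_610fe3_an.AC.U1.EyB1

/-!
# EYGEN with the exponent `2 (u - 1)`: assembly
-/

open Set Filter Function Metric
open scoped Topology

namespace Pool.Agent.Lib.MP610fe3.AC.U1

open Cf H6 T4 T6

universe v

open EyGM in
/-- EYGEN with the exponent `2 (u - 1)`. -/
theorem specEyGen1_of (hEA : SpecEyA1.{v}) (hEB : SpecEyB1.{v}) (hCov : SpecCover.{v}) :
    SpecEyGen1.{v} := by
  classical
  intro M _ _ f u φ C a b κ₀ r r₁ e ρ η ρ₁ κ P l₀ S hc hηe5 hηρ5 hκ hQ hsat hfwd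
  have hC := S.C1
  have hC0 : 0 < C := by linarith
  have hη := hc.η_pos
  have hηe := hc.η_le
  have he := S.e_pos
  have her := S.e_le_r
  have hρ₁ := hc.ρ₁_pos
  have ha := S.a_pos
  obtain ⟨V, hV, hA⟩ := hEA f u φ C a b κ₀ r r₁ e ρ η κ P S hη hηe5 hηρ5 hκ hQ hsat
  obtain ⟨C₁, hC₁, hB⟩ := hEB f u φ C a b κ₀ r r₁ e ρ η ρ₁ κ P S hc hηe5 hηρ5 hκ hQ hsat
  set V' : ℝ := V * (((l₀ : ℝ) + 1) * Real.exp (κ * l₀)) ^ (u - 1) * C₁ with hV'
  have hV'0 : 0 < V' := by positivity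
  set E₀ : ℝ := C * Real.exp (a * l₀) * (64 * C ^ 4 * η) with hE₀
  have hE₀0 : 0 < E₀ := by positivity
  set Cf : ℝ := 2 * e * Real.exp (a * l₀) + 4 * C ^ 3 * η + V' * E₀ with hCf
  have hCf0 : 0 < Cf := by positivity
  refine ⟨Cf, hCf0, ?_⟩
  intro q i m N w hwP₀ hqP₀ hinr hi hdom s hs t ht z z' hz hz'
  have hηe1 : η ≤ e := by nlinarith
  have hwP : ∀ s ∈ closedBall (0 : EuclideanSpace ℝ (Fin u)) ρ₁, φ w s ∈ P := fun s hs =>
    hsat w hwP₀ _ (Wl_mono hηe1 (hc.disc S w hs))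
  have hqP : ∀ v ∈ Wl f.symm e (q i), ∀ j : ℕ, f^[j] v ∈ P := by
    intro v hv j
    induction j with
    | zero => exact hsat _ hqP₀ v hv
    | succ j ih => rw [iterate_succ_apply']; exact hfwd _ ih
  have hi' : i * (C * Real.exp (-(b * N)) * (2 * e)) ≤ η := by
    refine hi.trans ?_
    rw [div_le_iff₀ (by positivity)]
    nlinarith
  have hballs : closedBall (0 : EuclideanSpace ℝ (Fin u)) (ρ₁ / 2) ⊆ closedBall 0 ρ₁ :=
    closedBall_subset_closedBall (by linarith)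
  -- lower bound of the result
  have hlow : ∀ x : ℝ, x ≤ Cf → x * Real.exp (-(a * m)) ≤ Cf * (N + 1) ^ (u - 1) *
      Real.exp (2 * (u - 1 : ℕ) * κ * (N - m : ℕ) - a * m) := by
    intro x hx
    have h1 : (1 : ℝ) ≤ ((N : ℝ) + 1) ^ (u - 1) := one_le_pow₀ (by
      have : (0 : ℝ) ≤ N := Nat.cast_nonneg N
      linarith)
    have h2 : Real.exp (-(a * m)) ≤ Real.exp (2 * (u - 1 : ℕ) * κ * (N - m : ℕ) - a * m) := by
      apply Real.exp_le_exp.2
      have : 0 ≤ 2 * ((u - 1 : ℕ) : ℝ) * κ * (N - m : ℕ) := by positivity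
      linarith
    calc x * Real.exp (-(a * m)) ≤ Cf * Real.exp (-(a * m)) := by gcongr
      _ = Cf * 1 * Real.exp (-(a * m)) := by ring
      _ ≤ _ := by gcongr
  rcases lt_or_ge m l₀ with hml | hml
  · -- short times
    have h1 : z' ∈ Wl f.symm (2 * e) z := by
      have := Wl_trans (Wl_comm hz.last) hz'.last
      rwa [← two_mul] at this
    refine Wl_mono ?_ h1
    have h2 : (1 : ℝ) ≤ Real.exp (a * l₀) * Real.exp (-(a * m)) := by
      rw [← Real.exp_add]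
      apply Real.one_le_exp
      have : (m : ℝ) ≤ l₀ := by exact_mod_cast hml.le
      nlinarith
    calc 2 * e = 2 * e * 1 := by ring
      _ ≤ 2 * e * (Real.exp (a * l₀) * Real.exp (-(a * m))) := by gcongr
      _ = 2 * e * Real.exp (a * l₀) * Real.exp (-(a * m)) := by ring
      _ ≤ _ := hlow _ (by
        have : 0 ≤ 4 * C ^ 3 * η + V' * E₀ := by positivity
        linarith)
  rcases lt_or_ge N m with hNm | hmN
  · -- long times
    refine Wl_mono ?_ (big S hc hNm.le hi' (hballs hs) (hballs ht) hz hz')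
    refine hlow _ ?_
    have : 0 ≤ 2 * e * Real.exp (a * l₀) + V' * E₀ := by positivity
    linarith
  -- the main case
  obtain ⟨n, X, Y, Cl, c, D, H, hsum, hYX, hlad⟩ := hB l₀ q i m N w hml hmN hwP hqP
    (hinr hml hmN) hi hdom
  set σ : ℝ := 32 * C ^ 4 * η with hσ
  have hσ0 : 0 < σ := by positivity
  have hσr : 2 * σ ≤ r := by
    have h1 : C ^ 4 ≤ C ^ 5 := pow_le_pow_right₀ hC (by norm_num)
    have h2 : 64 * (C ^ 4 * η) ≤ 1000 * (C ^ 5 * η) := by
      have : C ^ 4 * η ≤ C ^ 5 * η := by gcongr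
      have : 0 ≤ C ^ 5 * η := by positivity
      linarith
    linarith
  set W : Set M := Y '' closedBall 0 (1 / 2) with hW
  -- the number of pieces
  have hcard : ∀ G : Finset M, (∀ p ∈ G, p ∈ W) →
      (∀ p ∈ G, ∀ p' ∈ G, p ≠ p' → ¬ p' ∈ Wl f.symm σ p) →
      (G.card : ℝ) ≤ V' * (N + 1) ^ (u - 1) * Real.exp (2 * (u - 1 : ℕ) * κ * (N - m : ℕ)) := by
    intro G hG hG'
    have h1 := hA (N - m + l₀) Y Cl c D H G hG hG'
    refine h1.trans ?_
    have h2 : (((N - m + l₀ : ℕ) : ℝ) + 1) ≤ ((l₀ : ℝ) + 1) * (N + 1) := by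
      have h3 : (((N - m + l₀ : ℕ) : ℝ) + 1) ≤ N + l₀ + 1 := by
        have : N - m + l₀ ≤ N + l₀ := by omega
        have : ((N - m + l₀ : ℕ) : ℝ) ≤ ((N + l₀ : ℕ) : ℝ) := by exact_mod_cast this
        push_cast at this ⊢
        linarith
      have h4 : (0 : ℝ) ≤ l₀ * N := by positivity
      linarith
    have h3 : Real.exp (κ * (N - m + l₀ : ℕ)) =
        Real.exp (κ * l₀) * Real.exp (κ * (N - m : ℕ)) := by
      rw [← Real.exp_add]
      push_cast
      ring_nf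
    have h4 : Real.exp (κ * (N - m : ℕ)) ^ (u - 1) *
        Real.exp ((u - 1 : ℕ) * κ * (N - m : ℕ)) =
        Real.exp (2 * (u - 1 : ℕ) * κ * (N - m : ℕ)) := by
      rw [← Real.exp_nat_mul, ← Real.exp_add]
      ring_nf
    have h5 : (((N - m + l₀ : ℕ) : ℝ) + 1) * Real.exp (κ * (N - m + l₀ : ℕ)) ≤
        ((l₀ : ℝ) + 1) * Real.exp (κ * l₀) * (N + 1) * Real.exp (κ * (N - m : ℕ)) := by
      rw [h3]
      calc _ ≤ (((l₀ : ℝ) + 1) * (N + 1)) *
            (Real.exp (κ * l₀) * Real.exp (κ * (N - m : ℕ))) := by gcongr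
        _ = _ := by ring
    have h6 : 0 ≤ ∑ i, D i ^ u := Finset.sum_nonneg fun i _ => pow_nonneg (H.nn i) u
    calc V * ((((N - m + l₀ : ℕ) : ℝ) + 1) * Real.exp (κ * (N - m + l₀ : ℕ))) ^ (u - 1) *
          ∑ i, D i ^ u
        ≤ V * (((l₀ : ℝ) + 1) * Real.exp (κ * l₀) * (N + 1) *
          Real.exp (κ * (N - m : ℕ))) ^ (u - 1) * (C₁ * Real.exp ((u - 1 : ℕ) * κ * (N - m : ℕ))) := by
          gcongr
      _ = V * (((l₀ : ℝ) + 1) * Real.exp (κ * l₀)) ^ (u - 1) * C₁ * (N + 1) ^ (u - 1) *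
          (Real.exp (κ * (N - m : ℕ)) ^ (u - 1) * Real.exp ((u - 1 : ℕ) * κ * (N - m : ℕ))) := by
          rw [mul_pow _ (Real.exp (κ * (N - m : ℕ))), mul_pow _ ((N : ℝ) + 1)]
          ring
      _ = _ := by rw [h4]
  obtain ⟨G, hGW, hG, hGmax⟩ := exists_max_family W (fun p p' => p' ∈ Wl f.symm σ p)
    (fun p _ => mem_Wl_self hσ0.le) (fun p p' h => Wl_comm h)
    ⌊V' * (N + 1) ^ (u - 1) * Real.exp (2 * (u - 1 : ℕ) * κ * (N - m : ℕ))⌋₊
    (fun G h1 h2 => Nat.le_floor (hcard G h1 h2))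
  have hGc := hcard G hGW hG
  -- the segment
  have hhalf : ∀ s ∈ closedBall (0 : EuclideanSpace ℝ (Fin u)) (ρ₁ / 2),
      ρ₁⁻¹ • s ∈ closedBall (0 : EuclideanSpace ℝ (Fin u)) (1 / 2) := by
    intro s hs
    rw [mem_closedBall_zero_iff] at hs ⊢
    rw [norm_smul, norm_inv, Real.norm_of_nonneg hρ₁.le, inv_mul_le_iff₀ hρ₁]
    linarith
  have hhalf1 : closedBall (0 : EuclideanSpace ℝ (Fin u)) (1 / 2) ⊆ closedBall 0 1 :=
    closedBall_subset_closedBall (by norm_num)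
  have huniq : ∀ s ∈ closedBall (0 : EuclideanSpace ℝ (Fin u)) (ρ₁ / 2), ∀ z,
      Lad f e q i (f.symm^[m] (φ w s)) z → z = X (ρ₁⁻¹ • s) := by
    intro s hs z hz
    have h1 := hlad (ρ₁⁻¹ • s) (hhalf1 (hhalf s hs))
    rw [smul_inv_smul₀ hρ₁.ne'] at h1
    exact TrM.unique S q i _ _ _ (hz.mono (by linarith)) (h1.mono (by linarith))
  rw [huniq s hs z hz, huniq t ht z' hz']
  set s' : EuclideanSpace ℝ (Fin u) := ρ₁⁻¹ • s with hs'
  set t' : EuclideanSpace ℝ (Fin u) := ρ₁⁻¹ • t with ht'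
  have hγ : ∀ τ ∈ Icc (0 : ℝ) 1, AffineMap.lineMap s' t' τ ∈
      closedBall (0 : EuclideanSpace ℝ (Fin u)) (1 / 2) := by
    intro τ hτ
    exact (convex_closedBall _ _).lineMap_mem (hhalf s hs) (hhalf t ht) hτ
  set m' : ℕ := m - l₀ with hm'
  set E' : ℝ := C * Real.exp (-(a * m')) * (2 * σ) with hE'
  have hE'0 : 0 ≤ E' := by positivity
  have hcover := hCov (fun t x y => y ∈ Wl f.symm t x) E' G.card
    (fun τ => X (AffineMap.lineMap s' t' τ))
    (fun j => ⋂ k : ℕ, Icc (0 : ℝ) 1 ∩ (fun τ => dist (f.symm^[k] (Y (AffineMap.lineMap s' t' τ)))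
      (f.symm^[k] (G.equivFin.symm j : M))) ⁻¹' Iic σ) hE'0
    (fun s t x y z h1 h2 => Wl_trans h1 h2) (fun s t x y hst h => Wl_mono hst h)
    (fun x => mem_Wl_self le_rfl) ?_ ?_ ?_
  · simp only [AffineMap.lineMap_apply_zero, AffineMap.lineMap_apply_one] at hcover
    refine Wl_mono ?_ hcover
    have h1 : E' = E₀ * Real.exp (-(a * m)) := by
      have h2 : Real.exp (-(a * m')) = Real.exp (a * l₀) * Real.exp (-(a * m)) := by
        rw [← Real.exp_add, hm', Nat.cast_sub hml]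
        ring_nf
      rw [hE', h2, hE₀, hσ]
      ring
    calc (G.card : ℝ) * E' ≤ (V' * (N + 1) ^ (u - 1) * Real.exp (2 * (u - 1 : ℕ) * κ * (N - m : ℕ))) * E' := by
          gcongr
      _ = V' * E₀ * (N + 1) ^ (u - 1) *
          (Real.exp (2 * (u - 1 : ℕ) * κ * (N - m : ℕ)) * Real.exp (-(a * m))) := by
          rw [h1]
          ring
      _ = V' * E₀ * (N + 1) ^ (u - 1) * Real.exp (2 * (u - 1 : ℕ) * κ * (N - m : ℕ) - a * m) := by
          rw [← Real.exp_add]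
          ring_nf
      _ ≤ _ := by
          have h2 : V' * E₀ ≤ Cf := by
            have : 0 ≤ 2 * e * Real.exp (a * l₀) + 4 * C ^ 3 * η := by positivity
            linarith
          gcongr
  · -- closed
    intro j
    refine isClosed_iInter fun k => ?_
    refine ContinuousOn.preimage_isClosed_of_isClosed ?_ isClosed_Icc isClosed_Iic
    have h1 : ContinuousOn (fun τ => Y (AffineMap.lineMap s' t' τ)) (Icc (0 : ℝ) 1) :=
      H.cont.comp AffineMap.lineMap_continuous.continuousOn fun τ hτ => hhalf1 (hγ τ hτ)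
    have h2 : ContinuousOn (fun τ => f.symm^[k] (Y (AffineMap.lineMap s' t' τ))) (Icc (0 : ℝ) 1) :=
      (f.symm.continuous.iterate k).comp_continuousOn h1
    exact continuous_dist.comp_continuousOn (h2.prodMk continuousOn_const)
  · -- cover
    intro τ hτ
    obtain ⟨p, hp, hp'⟩ := hGmax (Y (AffineMap.lineMap s' t' τ)) ⟨_, hγ τ hτ, rfl⟩
    refine mem_iUnion.2 ⟨G.equivFin ⟨p, hp⟩, mem_iInter.2 fun k => ⟨hτ, ?_⟩⟩
    rw [Equiv.symm_apply_apply]
    exact hp' k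
  · -- pieces
    intro j τ hτ τ' hτ' _ _
    have h1 : Y (AffineMap.lineMap s' t' τ) ∈ Wl f.symm σ (G.equivFin.symm j : M) :=
      fun k => (mem_iInter.1 hτ k).2
    have h2 : Y (AffineMap.lineMap s' t' τ') ∈ Wl f.symm σ (G.equivFin.symm j : M) :=
      fun k => (mem_iInter.1 hτ' k).2
    have h3 : Y (AffineMap.lineMap s' t' τ') ∈ Wl f.symm (2 * σ) (Y (AffineMap.lineMap s' t' τ)) := by
      have := Wl_trans (Wl_comm h1) h2
      rwa [← two_mul] at this
    have h4 := wl_back S hσr h3 m'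
    rw [hYX, hYX, TrM.sii, TrM.sii] at h4
    exact h4

end Pool.Agent.Lib.MP610fe3.AC.U1
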